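import Mathlib

/-!
# The double counting
-/

set_option autoImplicit false

namespace Pool.Agent.V11232.DS

open Finset

theorem exists_sel {D ℓ K θ : ℕ} (hℓ : 0 < ℓ) (J : Finset ℕ) (hJ : ∀ j ∈ J, j < K * ℓ)
    (hcard : 2 * D * ℓ + K * θ < J.card) :
    ∃ sel : Fin D → ℕ, (∀ i i', i ≠ i' → sel i + 2 ≤ sel i' ∨ sel i' + 2 ≤ sel i) ∧
      ∀ i, θ ≤ (J.filter fun j => j / ℓ = sel i).card := by
  classical
  set Rich := (range K).filter fun b => θ ≤ (J.filter fun j => j / ℓ = b).card with hR
  have hfib : ∀ b, (J.filter fun j => j / ℓ = b).card ≤ ℓ := by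
    intro b
    have : (J.filter fun j => j / ℓ = b) ⊆ Ico (b * ℓ) (b * ℓ + ℓ) := by
      intro j hj
      rw [mem_filter] at hj
      rw [mem_Ico]
      have h1 := Nat.div_add_mod j ℓ
      have h2 := Nat.mod_lt j hℓ
      rw [hj.2] at h1
      rw [mul_comm b ℓ]
      omega
    refine (card_le_card this).trans ?_
    rw [Nat.card_Ico]
    omega
  have hsum : J.card = ∑ b ∈ range K, (J.filter fun j => j / ℓ = b).card := by
    refine card_eq_sum_card_fiberwise fun j hj => ?_
    rw [mem_coe, mem_range]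
    exact Nat.div_lt_of_lt_mul (by rw [mul_comm]; exact hJ j hj)
  have hRc : 2 * D ≤ Rich.card := by
    by_contra hcon
    push Not at hcon
    have h1 : J.card ≤ Rich.card * ℓ + K * θ := by
      rw [hsum, ← sum_filter_add_sum_filter_not (range K)
        (fun b => θ ≤ (J.filter fun j => j / ℓ = b).card)]
      refine Nat.add_le_add ?_ ?_
      · exact (sum_le_card_nsmul _ _ ℓ fun b _ => hfib b)
      · refine (sum_le_card_nsmul _ _ θ fun b hb => ?_).trans ?_
        · rw [mem_filter] at hb
          omega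
        · rw [smul_eq_mul]
          refine Nat.mul_le_mul_right _ ?_
          exact (card_filter_le _ _).trans (by rw [card_range])
    have h2 : Rich.card * ℓ ≤ 2 * D * ℓ := Nat.mul_le_mul_right _ hcon.le
    omega
  let f := Rich.orderEmbOfCardLe hRc
  have hf : ∀ x, f x ∈ Rich := fun x => Finset.orderEmbOfCardLe_mem _ _ x
  refine ⟨fun i => f ⟨2 * i.1, by have := i.2; omega⟩, ?_, ?_⟩
  · have key : ∀ i i' : Fin D, i < i' →
        f ⟨2 * i.1, by have := i.2; omega⟩ + 2 ≤ f ⟨2 * i'.1, by have := i'.2; omega⟩ := by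
      intro i i' hii
      have h0 : i.1 < i'.1 := hii
      have h1 : f ⟨2 * i.1, by have := i.2; omega⟩ < f ⟨2 * i.1 + 1, by have := i'.2; omega⟩ :=
        f.strictMono (by simp [Fin.lt_def])
      have h2 : f ⟨2 * i.1 + 1, by have := i'.2; omega⟩ < f ⟨2 * i'.1, by have := i'.2; omega⟩ :=
        f.strictMono (by simp only [Fin.lt_def]; omega)
      omega
    intro i i' hne
    rcases lt_or_gt_of_ne hne with h | h
    · exact Or.inl (key _ _ h)
    · exact Or.inr (key _ _ h)
  · intro i
    have h1 := hf ⟨2 * i.1, by have := i.2; omega⟩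
    rw [hR, mem_filter] at h1
    exact h1.2

theorem dcount {ζ : Type*} [DecidableEq ζ] {D ℓ θ P : ℕ} (hℓ : 0 < ℓ) (S : Finset ℤ)
    (J : ℤ → Finset ℕ) (Z : Finset ζ) (lab : ℤ → ℕ → ζ) (dec : ζ → ℕ)
    (hlab : ∀ v ∈ S, ∀ j ∈ J v, lab v j ∈ Z) (hdec : ∀ v ∈ S, ∀ j ∈ J v, dec (lab v j) = j)
    (sel : ℤ → Fin D → ℕ)
    (hsel : ∀ v ∈ S, ∀ i i', i ≠ i' → sel v i + 2 ≤ sel v i' ∨ sel v i' + 2 ≤ sel v i)
    (hrich : ∀ v ∈ S, ∀ i, θ ≤ ((J v).filter fun j => j / ℓ = sel v i).card)
    (hrig : ∀ v ∈ S, ∀ v' ∈ S, ∀ t : Fin D → ℕ, (∀ i, t i ∈ J v) → (∀ i, t i ∈ J v') →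
      (∀ i, lab v (t i) = lab v' (t i)) →
      (∀ i i', i ≠ i' → t i + ℓ ≤ t i' ∨ t i' + ℓ ≤ t i) → (v - v').natAbs ≤ P) :
    S.card * θ ^ D ≤ (P + 1) * Z.card ^ D := by
  classical
  set T : ℤ → Finset (Fin D → ℕ) := fun v =>
    Fintype.piFinset fun i => (J v).filter fun j => j / ℓ = sel v i with hT
  set Sg : Finset (Σ _ : ℤ, Fin D → ℕ) := S.sigma T with hSg
  have hSgc : S.card * θ ^ D ≤ Sg.card := by
    rw [hSg, card_sigma, ← smul_eq_mul]
    refine card_nsmul_le_sum _ _ _ fun v hv => ?_
    rw [hT]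
    simp only
    rw [Fintype.card_piFinset]
    calc θ ^ D = ∏ _i : Fin D, θ := by rw [prod_const, card_univ, Fintype.card_fin]
      _ ≤ _ := prod_le_prod' fun i _ => hrich v hv i
  have hmem : ∀ x ∈ Sg, x.1 ∈ S ∧ ∀ i, x.2 i ∈ J x.1 ∧ x.2 i / ℓ = sel x.1 i := by
    intro x hx
    rw [hSg, mem_sigma] at hx
    refine ⟨hx.1, fun i => ?_⟩
    have := (Fintype.mem_piFinset.1 hx.2) i
    rwa [mem_filter] at this
  have h1 : Sg.card ≤ (P + 1) * (Fintype.piFinset fun _ : Fin D => Z).card := by
    refine card_le_mul_card_image_of_maps_to (f := fun x => fun i => lab x.1 (x.2 i)) ?_ _ ?_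
    · intro x hx
      rw [Fintype.mem_piFinset]
      intro i
      exact hlab _ (hmem x hx).1 _ ((hmem x hx).2 i).1
    · intro b _
      set F := Sg.filter fun x => (fun i => lab x.1 (x.2 i)) = b with hF
      have hFm : ∀ x ∈ F, x ∈ Sg ∧ x.2 = fun i => dec (b i) := by
        intro x hx
        rw [hF, mem_filter] at hx
        refine ⟨hx.1, ?_⟩
        funext i
        rw [← hx.2]
        exact (hdec _ (hmem x hx.1).1 _ ((hmem x hx.1).2 i).1).symm
      have hpair : ∀ x ∈ F, ∀ y ∈ F, (x.1 - y.1).natAbs ≤ P := by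
        intro x hx y hy
        obtain ⟨hx1, hx2⟩ := hFm x hx
        obtain ⟨hy1, hy2⟩ := hFm y hy
        have hxy : x.2 = y.2 := hx2.trans hy2.symm
        refine hrig x.1 (hmem x hx1).1 y.1 (hmem y hy1).1 x.2 (fun i => ((hmem x hx1).2 i).1)
          (fun i => ?_) (fun i => ?_) fun i i' hne => ?_
        · rw [hxy]
          exact ((hmem y hy1).2 i).1
        · rw [hF, mem_filter] at hx hy
          have e1 := congrFun hx.2 i
          have e2 := congrFun hy.2 i
          rw [e1, ← e2, hxy]
        · have a1 := ((hmem x hx1).2 i).2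
          have a2 := ((hmem x hx1).2 i').2
          have d1 := Nat.div_add_mod (x.2 i) ℓ
          have d2 := Nat.div_add_mod (x.2 i') ℓ
          have m1 := Nat.mod_lt (x.2 i) hℓ
          have m2 := Nat.mod_lt (x.2 i') hℓ
          rw [a1] at d1
          rw [a2] at d2
          rcases hsel x.1 (hmem x hx1).1 i i' hne with h | h
          · left
            have h5 : ℓ * (sel x.1 i + 2) ≤ ℓ * sel x.1 i' := Nat.mul_le_mul_left _ h
            rw [Nat.mul_add] at h5
            omega
          · right
            have h5 : ℓ * (sel x.1 i' + 2) ≤ ℓ * sel x.1 i := Nat.mul_le_mul_left _ h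
            rw [Nat.mul_add] at h5
            omega
      rcases F.eq_empty_or_nonempty with h0 | ⟨x0, hx0⟩
      · rw [h0, card_empty]; omega
      · obtain ⟨z, hz, hzmin⟩ := exists_min_image F (fun x => x.1) ⟨x0, hx0⟩
        have h2 : F.card ≤ (Icc z.1 (z.1 + P)).card := by
          refine card_le_card_of_injOn (fun x => x.1) ?_ ?_
          · intro x hx
            rw [mem_coe, mem_Icc]
            have h3 := hzmin x hx
            have h4 := hpair x hx z hz
            simp only at h3 ⊢
            omega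
          · intro x hx y hy hxy
            rw [mem_coe] at hx hy
            obtain ⟨-, hx2⟩ := hFm x hx
            obtain ⟨-, hy2⟩ := hFm y hy
            obtain ⟨x1, x2⟩ := x
            obtain ⟨y1, y2⟩ := y
            simp only at hxy hx2 hy2
            subst hxy
            rw [hx2, hy2]
        refine h2.trans ?_
        rw [Int.card_Icc]
        omega
  refine hSgc.trans (h1.trans_eq ?_)
  rw [Fintype.card_piFinset, prod_const, card_univ, Fintype.card_fin]

/-- the binary strings of length at most `n` -/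
def strs : ℕ → Finset (List Bool)
  | 0 => {[]}
  | n + 1 => insert [] ((strs n).image (List.cons true) ∪ (strs n).image (List.cons false))

theorem mem_strs {n : ℕ} {p : List Bool} (h : p.length ≤ n) : p ∈ strs n := by
  induction n generalizing p with
  | zero =>
    have : p = [] := List.length_eq_zero_iff.1 (by omega)
    rw [this, strs, mem_singleton]
  | succ n ih =>
    rw [strs, mem_insert, mem_union, mem_image, mem_image]
    rcases p with _ | ⟨b, p⟩
    · exact Or.inl rfl
    · right
      rw [List.length_cons] at h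
      rcases b with _ | _
      · exact Or.inr ⟨p, ih (by omega), rfl⟩
      · exact Or.inl ⟨p, ih (by omega), rfl⟩

theorem card_strs (n : ℕ) : (strs n).card + 1 ≤ 2 ^ (n + 1) := by
  induction n with
  | zero => simp [strs]
  | succ n ih =>
    rw [strs]
    have h1 := card_insert_le ([] : List Bool)
      ((strs n).image (List.cons true) ∪ (strs n).image (List.cons false))
    have h2 := card_union_le ((strs n).image (List.cons true)) ((strs n).image (List.cons false))
    have h3 := card_image_le (s := strs n) (f := List.cons true)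
    have h4 := card_image_le (s := strs n) (f := List.cons false)
    rw [pow_succ]
    omega

end Pool.Agent.V11232.DS
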