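import Mathlib
import Pool.Agent.Helper926.RK.RELib
import Pool.Agent.Helper981.KP.KC
import Pool.Agent.V11268.ML.IntRec

/-!
# Prefix-free machines from recursively enumerable relations
-/

set_option autoImplicit false

namespace Pool.Agent.V11232.DS

open Pool.Agent.Helper926 Pool.Agent.Helper981.KP Pool.Agent.V11268.ML

section basic

variable {α β : Type*} [Primcodable α] [Primcodable β]

@[fun_prop] theorem cpow {f g : α → ℕ} (hf : Computable f) (hg : Computable g) :
    Computable (fun x => f x ^ g x) :=
  (Primrec₂.unpaired'.1 Nat.Primrec.pow : Primrec₂ ((· ^ ·) : ℕ → ℕ → ℕ)).to_comp.comp hf hg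

@[fun_prop] theorem cdiv {f g : α → ℕ} (hf : Computable f) (hg : Computable g) :
    Computable (fun x => f x / g x) := Primrec.nat_div.to_comp.comp hf hg

@[fun_prop] theorem cmod {f g : α → ℕ} (hf : Computable f) (hg : Computable g) :
    Computable (fun x => f x % g x) := Primrec.nat_mod.to_comp.comp hf hg

@[fun_prop] theorem ciadd {f g : α → ℤ} (hf : Computable f) (hg : Computable g) :
    Computable (fun x => f x + g x) := primrec_add.to_comp.comp hf hg

@[fun_prop] theorem cimul {f g : α → ℤ} (hf : Computable f) (hg : Computable g) :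
    Computable (fun x => f x * g x) := primrec_mul.to_comp.comp hf hg

@[fun_prop] theorem cicast {f : α → ℕ} (hf : Computable f) :
    Computable (fun x => (f x : ℤ)) := by
  refine (primrec_sub.to_comp.comp hf (Computable.const 0)).of_eq fun x => by simp

@[fun_prop] theorem cisub {f g : α → ℤ} (hf : Computable f) (hg : Computable g) :
    Computable (fun x => f x - g x) := by
  refine (ciadd hf (cimul (Computable.const (-1)) hg)).of_eq fun x => by ring

@[fun_prop] theorem cinatAbs {f : α → ℤ} (hf : Computable f) :
    Computable (fun x => (f x).natAbs) := primrec_natAbs.to_comp.comp hf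

@[fun_prop] theorem citoNat {f : α → ℤ} (hf : Computable f) :
    Computable (fun x => (f x).toNat) := primrec_toNat.to_comp.comp hf

@[fun_prop] theorem cgetD {f : α → List ℤ} (k : ℕ) (hf : Computable f) :
    Computable (fun x => (f x).getD k 0) := by
  have h : Computable fun x => ((f x)[k]?).getD 0 :=
    Primrec.option_getD.to_comp.comp (Computable.list_getElem?.comp hf (Computable.const k))
      (Computable.const 0)
  exact h.of_eq fun x => by simp [List.getD]

@[fun_prop] theorem cbval {f : α → List Bool} (hf : Computable f) :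
    Computable (fun x => bval (f x)) := primrec_bval.to_comp.comp hf

@[fun_prop] theorem cuna {f : α → ℕ} (hf : Computable f) :
    Computable (fun x => una (f x)) := primrec_una.to_comp.comp hf

theorem csum {F : ℕ → α → ℤ} (hF : ∀ k, Computable (F k)) (n : ℕ) :
    Computable fun x => ∑ k ∈ Finset.range n, F k x := by
  induction n with
  | zero => exact (Computable.const 0).of_eq fun x => by simp
  | succ n ih =>
    refine (ciadd ih (hF n)).of_eq fun x => by rw [Finset.sum_range_succ]

theorem ile {f g : α → ℤ} (hf : Computable f) (hg : Computable g) :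
    REPred fun a => f a ≤ g a := by
  refine (RE.eq (f := fun a => (f a - g a).toNat) (g := fun _ => 0) (by fun_prop)
    (Computable.const 0)).of_eq fun a => ?_
  omega

theorem ilt {f g : α → ℤ} (hf : Computable f) (hg : Computable g) :
    REPred fun a => f a < g a := by
  refine (ile (f := fun a => f a + 1) (g := g) (by fun_prop) hg).of_eq fun a => ?_
  omega

/-- at least `n` elements -/
theorem cnt {p : α → β → Prop} (hp : REPred fun x : α × β => p x.1 x.2) {n : α → ℕ}
    (hn : Computable n) :
    REPred fun a => ∃ L : List β, L.Nodup ∧ L.length = n a ∧ ∀ b ∈ L, p a b := by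
  refine RE.ex (p := fun a (L : List β) => L.Nodup ∧ L.length = n a ∧ ∀ b ∈ L, p a b) ?_
  refine RE.and (RE.cp_nodup Computable.snd) (RE.and (RE.eq (by fun_prop) (by fun_prop)) ?_)
  exact RE.all_mem (p := fun (x : α × List β) b => p x.1 b)
    (RE.comp hp ((Computable.fst.comp Computable.fst).pair Computable.snd)) Computable.snd

end basic

theorem una_append {m m' : ℕ} {a a' : List Bool} (h : una m ++ a <+: una m' ++ a') : m = m' := by
  obtain ⟨t, ht⟩ := h
  have key : ∀ {k k' : ℕ} (x x' : List Bool), una k ++ x = una k' ++ x' → ¬ k < k' := by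
    intro k k' x x' he hlt
    have h1 : (una k ++ x)[k]? = some false := by
      rw [List.getElem?_append_left (by rw [length_una]; omega)]
      exact una_get_eq k
    rw [he, List.getElem?_append_left (by rw [length_una]; omega), una_get_lt hlt] at h1
    simp at h1
  rw [List.append_assoc] at ht
  rcases Nat.lt_trichotomy m m' with h1 | h1 | h1
  · exact absurd h1 (key _ _ ht)
  · exact h1
  · exact absurd h1 (key _ _ ht.symm)

theorem parse_unique {s s' t t' : List Bool} {b : ℕ → ℕ} (ht : t.length = b (bval s))
    (ht' : t'.length = b (bval s'))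
    (h : una s.length ++ (s ++ t) <+: una s'.length ++ (s' ++ t')) : s = s' ∧ t = t' := by
  have hm := una_append h
  rw [hm] at h
  have h1 : s ++ t <+: s' ++ t' := (List.prefix_append_right_inj _).1 h
  have h2 : s = s' := by
    obtain ⟨u, hu⟩ := h1
    rw [List.append_assoc] at hu
    exact (List.append_inj hu hm).1
  subst h2
  have h3 : t <+: t' := (List.prefix_append_right_inj _).1 h1
  exact ⟨rfl, h3.eq_of_length (by rw [ht, ht'])⟩

/-- **The elements of a recursively enumerable family with indices of `b r` bits have complexity at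
most `b r + 2 log r + c`.** -/
theorem machine {U : List Bool →. List Bool} (hU : OptimalPF U) {b : ℕ → ℕ} (hb : Computable b)
    {W : ℕ → ℕ → List Bool → Prop}
    (hW : REPred fun x : ℕ × ℕ × List Bool => W x.1 x.2.1 x.2.2) :
    ∃ c, ∀ r i w, i < 2 ^ b r → W r i w → (∀ w', W r i w' → w' = w) →
      KPof U w ≤ b r + 2 * Nat.size r + c := by
  have hR : REPred fun x : List Bool × List Bool => ∃ s t : List Bool,
      x.1 = una s.length ++ (s ++ t) ∧ t.length = b (bval s) ∧ W (bval s) (bval t) x.2 := by
    refine RE.ex (p := fun (x : List Bool × List Bool) (s : List Bool) => ∃ t : List Bool,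
      x.1 = una s.length ++ (s ++ t) ∧ t.length = b (bval s) ∧ W (bval s) (bval t) x.2) ?_
    refine RE.ex (p := fun (x : (List Bool × List Bool) × List Bool) (t : List Bool) =>
      x.1.1 = una x.2.length ++ (x.2 ++ t) ∧ t.length = b (bval x.2) ∧
        W (bval x.2) (bval t) x.1.2) ?_
    refine RE.and (RE.eq (by fun_prop) (by fun_prop)) (RE.and (RE.eq (by fun_prop) ?_) ?_)
    · exact hb.comp (by fun_prop)
    · exact RE.comp hW (f := fun x : ((List Bool × List Bool) × List Bool) × List Bool =>
        (bval x.1.2, bval x.2, x.1.1.2)) (by fun_prop)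
  obtain ⟨M, hM1, hM2, hM3⟩ := RE.uniformize (r := fun p w => ∃ s t : List Bool,
      p = una s.length ++ (s ++ t) ∧ t.length = b (bval s) ∧ W (bval s) (bval t) w) hR
  have hM : PFMachine M := by
    refine ⟨hM1, fun p q hp hq hpq => ?_⟩
    obtain ⟨w, s, t, h1, h2, -⟩ := (hM2 p).1 hp
    obtain ⟨w', s', t', h1', h2', -⟩ := (hM2 q).1 hq
    rw [h1, h1'] at hpq
    obtain ⟨h3, h4⟩ := parse_unique h2 h2' hpq
    rw [h1, h1', h3, h4]
  obtain ⟨c, hc⟩ := hU.2 M hM
  refine ⟨c + 1, fun r i w hi hw huniq => ?_⟩
  obtain ⟨s, hs1, hs2⟩ := exists_bval (Nat.size r) r (Nat.lt_size_self r)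
  obtain ⟨t, ht1, ht2⟩ := exists_bval (b r) i hi
  have hdom : (M (una s.length ++ (s ++ t))).Dom :=
    (hM2 _).2 ⟨w, s, t, rfl, by rw [ht1, hs2], by rw [hs2, ht2]; exact hw⟩
  obtain ⟨w'', hw''⟩ := Part.dom_iff_mem.1 hdom
  obtain ⟨s', t', h1, h2, h3⟩ := hM3 _ _ hw''
  obtain ⟨h4, h5⟩ := parse_unique (b := b) (by rw [ht1, hs2]) h2 (by rw [h1])
  subst h4 h5
  rw [hs2, ht2] at h3
  have h6 := huniq _ h3
  subst h6
  obtain ⟨q, hq1, hq2⟩ := hc _ _ hw''
  refine (KPof_le hq1).trans (hq2.trans ?_)
  rw [List.length_append, List.length_append, length_una, hs1, ht1]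
  omega

end Pool.Agent.V11232.DS
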