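import Mathlib
import Pool.Agent.V11232.DS.Base

/-!
# Rational points of the unit circle used as nodes
-/

set_option autoImplicit false

namespace Pool.Agent.V11232.DS

open Pool.Agent.Helper926

/-- one multiplication by `(2 ^ (r + 1) + i) ^ 2` -/
def ustep (r : ℕ) (z : ℤ × ℤ) : ℤ × ℤ :=
  ((((4 ^ (r + 1) : ℕ) : ℤ) - 1) * z.1 - ((2 ^ (r + 2) : ℕ) : ℤ) * z.2,
    ((2 ^ (r + 2) : ℕ) : ℤ) * z.1 + (((4 ^ (r + 1) : ℕ) : ℤ) - 1) * z.2)

/-- `(2 ^ (r + 1) + i) ^ (2 n)`, real and imaginary part -/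
def uv (r : ℕ) (n : ℕ) : ℤ × ℤ := Nat.rec (1, 0) (fun _ z => ustep r z) n

/-- the common denominator -/
def TT (r : ℕ) : ℤ := 4 ^ (r + 1) + 1

/-- the angle of `(2 ^ (r + 1) + i) ^ 2` -/
noncomputable def tau (r : ℕ) : ℝ := 2 * Real.arctan ((1 / 2) ^ (r + 1))

theorem cstep {γ : Type*} [Primcodable γ] {a b u v : γ → ℤ} (ha : Computable a) (hb : Computable b)
    (hu : Computable u) (hv : Computable v) :
    Computable fun y => (a y * u y - b y * v y, b y * u y + a y * v y) :=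
  (cisub (cimul ha hu) (cimul hb hv)).pair (ciadd (cimul hb hu) (cimul ha hv))

theorem custep {γ : Type*} [Primcodable γ] {f : γ → ℕ} {g : γ → ℤ × ℤ} (hr : Computable f)
    (hz : Computable g) : Computable fun y => ustep (f y) (g y) := by
  have h4 : Computable fun y => (((4 ^ (f y + 1) : ℕ) : ℤ) - 1) :=
    cisub (cicast (cpow (Computable.const 4) (RE.cadd hr (Computable.const 1))))
      (Computable.const 1)
  have h2 : Computable fun y => ((2 ^ (f y + 2) : ℕ) : ℤ) :=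
    cicast (cpow (Computable.const 2) (RE.cadd hr (Computable.const 2)))
  exact cstep h4 h2 (Computable.fst.comp hz) (Computable.snd.comp hz)

theorem cuv {α : Type*} [Primcodable α] {f g : α → ℕ} (hf : Computable f) (hg : Computable g) :
    Computable fun x => uv (f x) (g x) :=
  Computable.nat_rec (f := g) (g := fun _ => ((1, 0) : ℤ × ℤ))
    (h := fun (x : α) (y : ℕ × (ℤ × ℤ)) => ustep (f x) y.2) hg (Computable.const _)
    (custep (hf.comp Computable.fst) (Computable.snd.comp Computable.snd)).to₂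

theorem hh_pos (r : ℕ) : (0 : ℝ) < (1 / 2) ^ (r + 1) := by positivity

theorem sin_arctan_eq (h : ℝ) : Real.sin (Real.arctan h) = h * Real.cos (Real.arctan h) := by
  have h1 := Real.tan_arctan h
  rw [Real.tan_eq_sin_div_cos] at h1
  have h2 : Real.cos (Real.arctan h) ≠ 0 := (Real.cos_arctan_pos h).ne'
  field_simp at h1
  linarith

theorem cos_tau (r : ℕ) : (TT r : ℝ) * Real.cos (tau r) = 4 ^ (r + 1) - 1 := by
  unfold tau TT
  rw [Real.cos_two_mul, Real.cos_sq_arctan]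
  have h4 : (4 : ℝ) ^ (r + 1) = (2 ^ (r + 1)) ^ 2 := by rw [← pow_mul, mul_comm, pow_mul]; norm_num
  have h2 : (0 : ℝ) < (2 : ℝ) ^ (r + 1) := by positivity
  have h6 : ((1 : ℝ) / 2) ^ (r + 1) = (2 ^ (r + 1))⁻¹ := by rw [one_div, inv_pow]
  push_cast
  rw [h4, h6]
  generalize (2 : ℝ) ^ (r + 1) = a at h2
  field_simp
  ring

theorem sin_tau (r : ℕ) : (TT r : ℝ) * Real.sin (tau r) = 2 ^ (r + 2) := by
  unfold tau TT
  rw [Real.sin_two_mul, sin_arctan_eq]
  have h0 : 2 * ((1 / 2 : ℝ) ^ (r + 1) * Real.cos (Real.arctan ((1 / 2) ^ (r + 1)))) *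
      Real.cos (Real.arctan ((1 / 2) ^ (r + 1))) =
      2 * (1 / 2 : ℝ) ^ (r + 1) * Real.cos (Real.arctan ((1 / 2) ^ (r + 1))) ^ 2 := by ring
  rw [h0, Real.cos_sq_arctan]
  have h4 : (4 : ℝ) ^ (r + 1) = (2 ^ (r + 1)) ^ 2 := by rw [← pow_mul, mul_comm, pow_mul]; norm_num
  have h2 : (0 : ℝ) < (2 : ℝ) ^ (r + 1) := by positivity
  have h3 : (2 : ℝ) ^ (r + 2) = 2 * 2 ^ (r + 1) := by ring
  have h6 : ((1 : ℝ) / 2) ^ (r + 1) = (2 ^ (r + 1))⁻¹ := by rw [one_div, inv_pow]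
  push_cast
  rw [h4, h3, h6]
  generalize (2 : ℝ) ^ (r + 1) = a at h2
  field_simp
  try ring

theorem uv_eq (r n : ℕ) : ((uv r n).1 : ℝ) = TT r ^ n * Real.cos (n * tau r) ∧
    ((uv r n).2 : ℝ) = TT r ^ n * Real.sin (n * tau r) := by
  induction n with
  | zero => simp [uv]
  | succ n ih =>
    obtain ⟨h1, h2⟩ := ih
    have hc := cos_tau r
    have hs := sin_tau r
    have e : ((n + 1 : ℕ) : ℝ) * tau r = n * tau r + tau r := by push_cast; ring
    have e2 : uv r (n + 1) = ustep r (uv r n) := rfl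
    rw [e, Real.cos_add, Real.sin_add, e2, ustep]
    push_cast
    rw [h1, h2, ← hc, ← hs, pow_succ]
    constructor <;> ring

theorem tau_bounds (r : ℕ) : tau r ≤ (1 / 2) ^ r ∧ (1 / 2) ^ r - (1 / 4) ^ r ≤ tau r ∧
    (1 / 2) ^ (r + 1) ≤ tau r := by
  have hh := hh_pos r
  set h : ℝ := (1 / 2) ^ (r + 1) with hdef
  have hh1 : h ≤ 1 / 2 := by
    rw [hdef, pow_succ]
    have : (1 / 2 : ℝ) ^ r ≤ 1 := pow_le_one₀ (by norm_num) (by norm_num)
    nlinarith
  have h2 : (1 / 2 : ℝ) ^ r = 2 * h := by rw [hdef, pow_succ]; ring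
  have h4 : (1 / 4 : ℝ) ^ r = 4 * h ^ 2 := by
    have h5 : h ^ 2 = (1 / 4 : ℝ) ^ (r + 1) := by
      rw [hdef, ← pow_mul, mul_comm (r + 1) 2, pow_mul]
      norm_num
    rw [h5, pow_succ]
    ring
  set t := Real.arctan h with ht
  have ht0 : 0 < t := Real.arctan_pos.2 hh
  have hth : t ≤ h := by
    have h5 := Real.le_tan ht0.le (Real.arctan_lt_pi_div_two h)
    rwa [ht, Real.tan_arctan, ← ht] at h5
  have hs : Real.sin t = h * Real.cos t := sin_arctan_eq h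
  have hs1 : Real.sin t ≤ t := Real.sin_le ht0.le
  have hc1 : 1 - t ^ 2 / 2 ≤ Real.cos t := Real.one_sub_sq_div_two_le_cos
  have h6 : h * (1 - t ^ 2 / 2) ≤ t := by
    calc h * (1 - t ^ 2 / 2) ≤ h * Real.cos t := by gcongr
      _ ≤ t := by rw [← hs]; exact hs1
  have h7 : t ^ 2 ≤ h ^ 2 := by gcongr
  unfold tau
  rw [← hdef, ← ht, h2, h4]
  refine ⟨by linarith, ?_, ?_⟩
  · nlinarith [mul_le_mul_of_nonneg_left h7 hh.le, mul_pos hh hh]
  · nlinarith [mul_le_mul_of_nonneg_left h7 hh.le, mul_pos hh hh]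

end Pool.Agent.V11232.DS
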