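import Mathlib
import Pool.Agent.V11232.DS.Node

/-!
# Points of small complexity near the graph of a trigonometric polynomial
-/

set_option autoImplicit false

namespace Pool.Agent.V11232.DS

open Pool.Agent.Helper926 Pool.Agent.Helper981.KP

/-- A computable binary coding of the rational vectors of dimension two: an injective map given by a
computable function of the numerators and denominators of the coordinates (in lowest terms). -/
def IsCoding (code : ℚ × ℚ → List Bool) : Prop :=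
  Function.Injective code ∧ ∃ c : ℤ × ℕ × ℤ × ℕ → List Bool, Computable c ∧
    ∀ q, code q = c (q.1.num, q.1.den, q.2.num, q.2.den)

theorem re_graph {α β : Type*} [Primcodable α] [Primcodable β] {f : α →. β} (hf : Partrec f) :
    REPred fun x : α × β => x.2 ∈ f x.1 := by
  have h1 : REPred fun x : (α × β) × β => x.2 = x.1.2 :=
    RE.eq Computable.snd (Computable.snd.comp Computable.fst)
  have h : Partrec fun x : α × β => (f x.1).bind fun y =>
      Part.assert (y = x.2) fun _ => Part.some () :=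
    Partrec.bind (hf.comp Computable.fst) h1
  refine h.dom_re.of_eq fun x => ?_
  rw [Part.bind_dom]
  constructor
  · rintro ⟨h1, h2, -⟩
    rw [← h2]
    exact Part.get_mem h1
  · intro hx
    refine ⟨Part.dom_iff_mem.2 ⟨_, hx⟩, ?_, trivial⟩
    exact Part.get_eq_of_mem hx _

/-- the numerator of the value of the trigonometric polynomial with coefficients `A / 2 ^ r`,
`B / 2 ^ r` at the node `j` -/
def gv (m r j : ℕ) (A B : List ℤ) : ℤ := ∑ k ∈ Finset.range (m + 1),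
  (A.getD k 0 * (uv r (k * j)).1 + B.getD k 0 * (uv r (k * j)).2) *
    (((4 ^ (r + 1) + 1) ^ ((m - k) * j) : ℕ) : ℤ)

/-- the value (times `2 ^ r`) as a real number -/
noncomputable def gR (m r j : ℕ) (A B : List ℤ) : ℝ := ∑ k ∈ Finset.range (m + 1),
  ((A.getD k 0 : ℝ) * Real.cos (k * (j * tau r)) + (B.getD k 0 : ℝ) * Real.sin (k * (j * tau r)))

theorem gv_eq (m r j : ℕ) (A B : List ℤ) :
    (gv m r j A B : ℝ) = (((4 ^ (r + 1) + 1) ^ (m * j) : ℕ) : ℝ) * gR m r j A B := by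
  unfold gv gR
  push_cast
  rw [Finset.mul_sum]
  refine Finset.sum_congr rfl fun k hk => ?_
  rw [Finset.mem_range] at hk
  obtain ⟨h1, h2⟩ := uv_eq r (k * j)
  rw [h1, h2]
  have e1 : ((k * j : ℕ) : ℝ) * tau r = k * (j * tau r) := by push_cast; ring
  have e2 : (TT r : ℝ) = 4 ^ (r + 1) + 1 := by unfold TT; push_cast; ring
  have e3 : ((4 : ℝ) ^ (r + 1) + 1) ^ (m * j) =
      (4 ^ (r + 1) + 1) ^ (k * j) * (4 ^ (r + 1) + 1) ^ ((m - k) * j) := by
    rw [← pow_add, ← Nat.add_mul]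
    congr 2
    omega
  rw [e1, e2, e3]
  ring

theorem cgv (m : ℕ) {α : Type*} [Primcodable α] {r j : α → ℕ} {A B : α → List ℤ}
    (hr : Computable r) (hj : Computable j) (hA : Computable A) (hB : Computable B) :
    Computable fun x => gv m (r x) (j x) (A x) (B x) := by
  unfold gv
  refine csum (F := fun k x => ((A x).getD k 0 * (uv (r x) (k * j x)).1 +
    (B x).getD k 0 * (uv (r x) (k * j x)).2) *
    (((4 ^ (r x + 1) + 1) ^ ((m - k) * j x) : ℕ) : ℤ)) (fun k => ?_) (m + 1)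
  have h1 : Computable fun x => uv (r x) (k * j x) :=
    cuv hr (RE.cmul (Computable.const k) hj)
  have h2 : Computable fun x => ((4 ^ (r x + 1) + 1) ^ ((m - k) * j x) : ℕ) :=
    cpow (RE.cadd (cpow (Computable.const 4) (RE.cadd hr (Computable.const 1)))
      (Computable.const 1)) (RE.cmul (Computable.const (m - k)) hj)
  exact cimul (ciadd (cimul (cgetD k hA) (Computable.fst.comp h1))
    (cimul (cgetD k hB) (Computable.snd.comp h1))) (cicast h2)

/-- The type of the witnesses. -/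
abbrev Wit := List Bool × (ℤ × ℕ × ℤ × ℕ) × (ℤ × ℤ × ℤ × ℤ)

/-- the integral form of `near` -/
def nearZ (U : List Bool →. List Bool) (c : ℤ × ℕ × ℤ × ℕ → List Bool) (m C h : ℕ)
    (x : ℕ × List ℤ × List ℤ × ℕ) : Prop :=
  ∃ y : Wit, y.1.length ≤ x.1 + x.1 / h ∧ (0 < y.2.1.2.1 ∧ 0 < y.2.1.2.2.2) ∧
    (y.2.1.1 * y.2.2.1 + (y.2.1.2.1 : ℤ) * y.2.2.2.1 = 1 ∧
      y.2.1.2.2.1 * y.2.2.2.2.1 + (y.2.1.2.2.2 : ℤ) * y.2.2.2.2.2 = 1) ∧
    c y.2.1 ∈ U y.1 ∧
    ((y.2.1.1 * ((2 ^ x.1 : ℕ) : ℤ) - (x.2.2.2 : ℤ) * (y.2.1.2.1 : ℤ)).natAbs ≤ C * y.2.1.2.1 ∧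
    (y.2.1.2.2.1 * ((2 ^ x.1 : ℕ) : ℤ) * (((4 ^ (x.1 + 1) + 1) ^ (m * x.2.2.2) : ℕ) : ℤ) -
      gv m x.1 x.2.2.2 x.2.1 x.2.2.1 * (y.2.1.2.2.2 : ℤ)).natAbs ≤
      C * y.2.1.2.2.2 * (4 ^ (x.1 + 1) + 1) ^ (m * x.2.2.2))

theorem re_nearZ {U : List Bool →. List Bool} (hU : Partrec U)
    {c : ℤ × ℕ × ℤ × ℕ → List Bool} (hc : Computable c) (m C h : ℕ) :
    REPred (nearZ U c m C h) := by
  refine RE.ex (p := fun (x : ℕ × List ℤ × List ℤ × ℕ) (y : Wit) =>
    y.1.length ≤ x.1 + x.1 / h ∧ (0 < y.2.1.2.1 ∧ 0 < y.2.1.2.2.2) ∧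
    (y.2.1.1 * y.2.2.1 + (y.2.1.2.1 : ℤ) * y.2.2.2.1 = 1 ∧
      y.2.1.2.2.1 * y.2.2.2.2.1 + (y.2.1.2.2.2 : ℤ) * y.2.2.2.2.2 = 1) ∧
    c y.2.1 ∈ U y.1 ∧
    ((y.2.1.1 * ((2 ^ x.1 : ℕ) : ℤ) - (x.2.2.2 : ℤ) * (y.2.1.2.1 : ℤ)).natAbs ≤ C * y.2.1.2.1 ∧
    (y.2.1.2.2.1 * ((2 ^ x.1 : ℕ) : ℤ) * (((4 ^ (x.1 + 1) + 1) ^ (m * x.2.2.2) : ℕ) : ℤ) -
      gv m x.1 x.2.2.2 x.2.1 x.2.2.1 * (y.2.1.2.2.2 : ℤ)).natAbs ≤
      C * y.2.1.2.2.2 * (4 ^ (x.1 + 1) + 1) ^ (m * x.2.2.2))) ?_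
  -- the coordinates
  have hx1 : Computable fun z : (ℕ × List ℤ × List ℤ × ℕ) × Wit => z.1.1 :=
    Computable.fst.comp Computable.fst
  have hx2 : Computable fun z : (ℕ × List ℤ × List ℤ × ℕ) × Wit => z.1.2.1 :=
    Computable.fst.comp (Computable.snd.comp Computable.fst)
  have hx3 : Computable fun z : (ℕ × List ℤ × List ℤ × ℕ) × Wit => z.1.2.2.1 :=
    Computable.fst.comp (Computable.snd.comp (Computable.snd.comp Computable.fst))
  have hx4 : Computable fun z : (ℕ × List ℤ × List ℤ × ℕ) × Wit => z.1.2.2.2 :=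
    Computable.snd.comp (Computable.snd.comp (Computable.snd.comp Computable.fst))
  have hp : Computable fun z : (ℕ × List ℤ × List ℤ × ℕ) × Wit => z.2.1 :=
    Computable.fst.comp Computable.snd
  have hq : Computable fun z : (ℕ × List ℤ × List ℤ × ℕ) × Wit => z.2.2.1 :=
    Computable.fst.comp (Computable.snd.comp Computable.snd)
  have hz : Computable fun z : (ℕ × List ℤ × List ℤ × ℕ) × Wit => z.2.2.2 :=
    Computable.snd.comp (Computable.snd.comp Computable.snd)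
  have hn1 := Computable.fst.comp hq
  have hd1 := Computable.fst.comp (Computable.snd.comp hq)
  have hn2 := Computable.fst.comp (Computable.snd.comp (Computable.snd.comp hq))
  have hd2 := Computable.snd.comp (Computable.snd.comp (Computable.snd.comp hq))
  have ha1 := Computable.fst.comp hz
  have hb1 := Computable.fst.comp (Computable.snd.comp hz)
  have ha2 := Computable.fst.comp (Computable.snd.comp (Computable.snd.comp hz))
  have hb2 := Computable.snd.comp (Computable.snd.comp (Computable.snd.comp hz))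
  have hT : Computable fun z : (ℕ × List ℤ × List ℤ × ℕ) × Wit =>
      (4 ^ (z.1.1 + 1) + 1) ^ (m * z.1.2.2.2) :=
    cpow (RE.cadd (cpow (Computable.const 4) (RE.cadd hx1 (Computable.const 1)))
      (Computable.const 1)) (RE.cmul (Computable.const m) hx4)
  have h2r : Computable fun z : (ℕ × List ℤ × List ℤ × ℕ) × Wit => ((2 ^ z.1.1 : ℕ) : ℤ) :=
    cicast (cpow (Computable.const 2) hx1)
  refine RE.and (RE.le (RE.clength hp) (RE.cadd hx1 (cdiv hx1 (Computable.const h))))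
    (RE.and (RE.and (RE.lt (Computable.const 0) hd1) (RE.lt (Computable.const 0) hd2))
    (RE.and (RE.and ?_ ?_) (RE.and ?_ (RE.and ?_ ?_))))
  · exact RE.eq (ciadd (cimul hn1 ha1) (cimul (cicast hd1) hb1)) (Computable.const 1)
  · exact RE.eq (ciadd (cimul hn2 ha2) (cimul (cicast hd2) hb2)) (Computable.const 1)
  · exact RE.comp (re_graph hU) (f := fun z : (ℕ × List ℤ × List ℤ × ℕ) × Wit =>
      (z.2.1, c z.2.2.1)) (hp.pair (hc.comp hq))
  · exact RE.le (cinatAbs (cisub (cimul hn1 h2r) (cimul (cicast hx4) (cicast hd1))))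
      (RE.cmul (Computable.const C) hd1)
  · exact RE.le (cinatAbs (cisub (cimul (cimul hn2 h2r) (cicast hT))
      (cimul (cgv m hx1 hx4 hx2 hx3) (cicast hd2))))
      (RE.cmul (RE.cmul (Computable.const C) hd2) hT)

/-- there is a point of complexity at most `r + r / h` near the point of the graph over the
node `j` -/
def near (U : List Bool →. List Bool) (code : ℚ × ℚ → List Bool) (m C h r : ℕ) (A B : List ℤ)
    (j : ℕ) : Prop :=
  ∃ (p : List Bool) (q : ℚ × ℚ), p.length ≤ r + r / h ∧ code q ∈ U p ∧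
    |(q.1 : ℝ) * 2 ^ r - j| ≤ C ∧ |(q.2 : ℝ) * 2 ^ r - gR m r j A B| ≤ C

theorem near_iff {U : List Bool →. List Bool} {code : ℚ × ℚ → List Bool}
    {c : ℤ × ℕ × ℤ × ℕ → List Bool} (hc : ∀ q, code q = c (q.1.num, q.1.den, q.2.num, q.2.den))
    (m C h r : ℕ) (A B : List ℤ) (j : ℕ) :
    near U code m C h r A B j ↔ nearZ U c m C h (r, A, B, j) := by
  have key1 : ∀ (n : ℤ) (d : ℕ), 0 < d → ((n * ((2 ^ r : ℕ) : ℤ) - (j : ℤ) * (d : ℤ)).natAbs ≤ C * d ↔
      |((n : ℝ) / d) * 2 ^ r - j| ≤ C) := by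
    intro n d hd
    have hd' : (0 : ℝ) < d := by exact_mod_cast hd
    have e : ((n : ℝ) / d) * 2 ^ r - j = (n * 2 ^ r - j * d) / d := by field_simp
    rw [e, abs_div, abs_of_pos hd', div_le_iff₀ hd']
    have h1 : (((n * ((2 ^ r : ℕ) : ℤ) - (j : ℤ) * (d : ℤ)).natAbs : ℕ) : ℝ) =
        |(n : ℝ) * 2 ^ r - j * d| := by
      rw [Nat.cast_natAbs, Int.cast_abs]
      push_cast
      rfl
    rw [← h1]
    exact_mod_cast Iff.rfl
  have key2 : ∀ (n : ℤ) (d : ℕ), 0 < d →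
      ((n * ((2 ^ r : ℕ) : ℤ) * (((4 ^ (r + 1) + 1) ^ (m * j) : ℕ) : ℤ) -
      gv m r j A B * (d : ℤ)).natAbs ≤ C * d * (4 ^ (r + 1) + 1) ^ (m * j) ↔
      |((n : ℝ) / d) * 2 ^ r - gR m r j A B| ≤ C) := by
    intro n d hd
    have hd' : (0 : ℝ) < d := by exact_mod_cast hd
    have hT : (0 : ℝ) < (((4 ^ (r + 1) + 1) ^ (m * j) : ℕ) : ℝ) := by positivity
    have e : ((n : ℝ) / d) * 2 ^ r - gR m r j A B =
        (n * 2 ^ r * (((4 ^ (r + 1) + 1) ^ (m * j) : ℕ) : ℝ) - gv m r j A B * d) /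
          (d * (((4 ^ (r + 1) + 1) ^ (m * j) : ℕ) : ℝ)) := by
      rw [gv_eq]
      field_simp
    rw [e, abs_div, abs_of_pos (mul_pos hd' hT), div_le_iff₀ (mul_pos hd' hT)]
    have h1 : (((n * ((2 ^ r : ℕ) : ℤ) * (((4 ^ (r + 1) + 1) ^ (m * j) : ℕ) : ℤ) -
      gv m r j A B * (d : ℤ)).natAbs : ℕ) : ℝ) =
        |(n : ℝ) * 2 ^ r * (((4 ^ (r + 1) + 1) ^ (m * j) : ℕ) : ℝ) - gv m r j A B * d| := by
      rw [Nat.cast_natAbs, Int.cast_abs]
      push_cast
      rfl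
    rw [← h1, ← mul_assoc]
    exact_mod_cast Iff.rfl
  constructor
  · rintro ⟨p, q, h1, h2, h3, h4⟩
    have b1 : ∃ a b : ℤ, q.1.num * a + (q.1.den : ℤ) * b = 1 := by
      have := (Int.isCoprime_iff_gcd_eq_one.2 (by
        rw [Int.gcd, Int.natAbs_natCast]; exact q.1.reduced) : IsCoprime q.1.num (q.1.den : ℤ))
      obtain ⟨a, b, hab⟩ := this
      exact ⟨a, b, by rw [← hab]; ring⟩
    have b2 : ∃ a b : ℤ, q.2.num * a + (q.2.den : ℤ) * b = 1 := by
      have := (Int.isCoprime_iff_gcd_eq_one.2 (by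
        rw [Int.gcd, Int.natAbs_natCast]; exact q.2.reduced) : IsCoprime q.2.num (q.2.den : ℤ))
      obtain ⟨a, b, hab⟩ := this
      exact ⟨a, b, by rw [← hab]; ring⟩
    obtain ⟨a1, c1, e1⟩ := b1
    obtain ⟨a2, c2, e2⟩ := b2
    refine ⟨(p, (q.1.num, q.1.den, q.2.num, q.2.den), (a1, c1, a2, c2)), h1,
      ⟨q.1.pos, q.2.pos⟩, ⟨e1, e2⟩, ?_, ?_, ?_⟩
    · rw [← hc]; exact h2
    · refine (key1 _ _ q.1.pos).2 ?_
      have : ((q.1.num : ℝ) / q.1.den) = (q.1 : ℝ) := by exact_mod_cast q.1.num_div_den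
      rw [this]
      exact h3
    · refine (key2 _ _ q.2.pos).2 ?_
      have : ((q.2.num : ℝ) / q.2.den) = (q.2 : ℝ) := by exact_mod_cast q.2.num_div_den
      rw [this]
      exact h4
  · rintro ⟨⟨p, ⟨n1, d1, n2, d2⟩, ⟨a1, c1, a2, c2⟩⟩, h1, ⟨hd1, hd2⟩, ⟨e1, e2⟩, h2, h3, h4⟩
    simp only at h1 hd1 hd2 e1 e2 h2 h3 h4
    have cop : ∀ (n : ℤ) (d : ℕ) (a b : ℤ), 0 < d → n * a + (d : ℤ) * b = 1 →
        ((n / d : ℚ)).num = n ∧ ((n / d : ℚ)).den = d := by
      intro n d a b hd he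
      have hcop : Nat.Coprime n.natAbs (d : ℤ).natAbs := by
        have : IsCoprime n (d : ℤ) := ⟨a, b, by rw [← he]; ring⟩
        exact Int.isCoprime_iff_gcd_eq_one.1 this
      have hd' : (0 : ℤ) < d := by exact_mod_cast hd
      have g1 := Rat.num_div_eq_of_coprime hd' hcop
      have g2 := Rat.den_div_eq_of_coprime hd' hcop
      push_cast at g1 g2
      exact ⟨g1, by exact_mod_cast g2⟩
    obtain ⟨f1, f2⟩ := cop n1 d1 a1 c1 hd1 e1
    obtain ⟨f3, f4⟩ := cop n2 d2 a2 c2 hd2 e2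
    refine ⟨p, ((n1 / d1 : ℚ), (n2 / d2 : ℚ)), h1, ?_, ?_, ?_⟩
    · rw [hc]
      simp only
      rw [f1, f2, f3, f4]
      exact h2
    · have := (key1 n1 d1 hd1).1 h3
      push_cast
      exact this
    · have := (key2 n2 d2 hd2).1 h4
      push_cast
      exact this

end Pool.Agent.V11232.DS
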