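import Mathlib

/-!
# Trigonometric polynomials that are small at many separated points
-/

set_option autoImplicit false

namespace Pool.Agent.V11232.DS

open Polynomial Finset Complex

/-- the polynomial attached to a trigonometric polynomial -/
noncomputable def tp (m : ℕ) (α β : ℕ → ℝ) : Polynomial ℂ :=
  ∑ k ∈ range (m + 1), (C (((α k : ℂ) - β k * I) / 2) * X ^ (m + k) +
    C (((α k : ℂ) + β k * I) / 2) * X ^ (m - k))

theorem tp_degree (m : ℕ) (α β : ℕ → ℝ) : (tp m α β).degree < ((2 * m + 1 : ℕ) : WithBot ℕ) := by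
  unfold tp
  refine lt_of_le_of_lt (Polynomial.degree_sum_le _ _) ?_
  rw [Finset.sup_lt_iff (by exact_mod_cast WithBot.bot_lt_coe _)]
  intro k hk
  rw [mem_range] at hk
  refine lt_of_le_of_lt (Polynomial.degree_add_le _ _) (max_lt ?_ ?_)
  · refine lt_of_le_of_lt (Polynomial.degree_C_mul_X_pow_le _ _) ?_
    exact_mod_cast (by omega : m + k < 2 * m + 1)
  · refine lt_of_le_of_lt (Polynomial.degree_C_mul_X_pow_le _ _) ?_
    exact_mod_cast (by omega : m - k < 2 * m + 1)

theorem tp_eval (m : ℕ) (α β : ℕ → ℝ) (θ : ℝ) : (tp m α β).eval (exp (θ * I)) =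
    exp (m * (θ * I)) * ((∑ k ∈ range (m + 1), (α k * Real.cos (k * θ) + β k * Real.sin (k * θ)) : ℝ)
      : ℂ) := by
  unfold tp
  rw [Polynomial.eval_finsetSum]
  push_cast
  rw [Finset.mul_sum]
  refine Finset.sum_congr rfl fun k hk => ?_
  rw [mem_range] at hk
  simp only [eval_add, eval_mul, eval_C, eval_pow, eval_X]
  have h1 : exp (θ * I) ^ (m + k) = exp (m * (θ * I)) * exp (k * (θ * I)) := by
    rw [pow_add, ← Complex.exp_nat_mul, ← Complex.exp_nat_mul]
  have h2 : exp (θ * I) ^ (m - k) = exp (m * (θ * I)) * exp (-(k * (θ * I))) := by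
    rw [← Complex.exp_nat_mul, ← Complex.exp_add]
    congr 1
    rw [Nat.cast_sub (by omega)]
    ring
  rw [h1, h2, Complex.cos, Complex.sin]
  have h3 : (k : ℂ) * θ * I = k * (θ * I) := by ring
  have h4 : -((k : ℂ) * θ) * I = -(k * (θ * I)) := by ring
  rw [h3, h4]
  have h5 : I * I = -1 := I_mul_I
  ring_nf
  

theorem tp_one (m : ℕ) (α β : ℕ → ℝ) : (tp m α β).eval 1 = ((∑ k ∈ range (m + 1), α k : ℝ) : ℂ) := by
  unfold tp
  rw [Polynomial.eval_finsetSum]
  push_cast
  refine Finset.sum_congr rfl fun k hk => ?_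
  simp only [eval_add, eval_mul, eval_C, eval_pow, eval_X, one_pow, mul_one]
  ring

/-- **The value at zero of a trigonometric polynomial which is small at `2 m + 1` separated
points.** -/
theorem rigid (m : ℕ) (α β : ℕ → ℝ) (θ : Fin (2 * m + 1) → ℝ) {η δ : ℝ} (hη : 0 < η)
    (hsep : ∀ i j, i ≠ j → η ≤ ‖exp (θ i * I) - exp (θ j * I)‖)
    (hval : ∀ i, |∑ k ∈ range (m + 1), (α k * Real.cos (k * θ i) + β k * Real.sin (k * θ i))| ≤ δ) :
    |∑ k ∈ range (m + 1), α k| ≤ (2 * m + 1) * (δ * (2 / η) ^ (2 * m)) := by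
  classical
  set v : Fin (2 * m + 1) → ℂ := fun i => exp (θ i * I) with hv
  have hinj : Set.InjOn v (univ : Finset (Fin (2 * m + 1))) := by
    intro i _ j _ hij
    by_contra hne
    have h1 := hsep i j hne
    change η ≤ ‖v i - v j‖ at h1
    rw [hij, sub_self, norm_zero] at h1
    linarith
  have hδ : 0 ≤ δ := le_trans (abs_nonneg _) (hval ⟨0, by omega⟩)
  have h1 := Lagrange.eq_interpolate_of_eval_eq (s := (univ : Finset (Fin (2 * m + 1))))
    (v := v) (f := tp m α β) (r := fun i => (tp m α β).eval (v i)) hinj (by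
      rw [Finset.card_univ, Fintype.card_fin]
      exact tp_degree m α β) (fun i _ => rfl)
  have h2 : ((∑ k ∈ range (m + 1), α k : ℝ) : ℂ) = ∑ i, (tp m α β).eval (v i) *
      ∏ j ∈ univ.erase i, ((v i - v j)⁻¹ * (1 - v j)) := by
    rw [← tp_one m α β]
    conv_lhs => rw [h1]
    rw [Lagrange.interpolate_apply, Polynomial.eval_finsetSum]
    refine Finset.sum_congr rfl fun i _ => ?_
    rw [eval_mul, eval_C, Lagrange.basis, Polynomial.eval_prod]
    congr 1
    refine Finset.prod_congr rfl fun j _ => ?_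
    rw [Lagrange.basisDivisor, eval_mul, eval_C, eval_sub, eval_X, eval_C]
  have h3 : |∑ k ∈ range (m + 1), α k| = ‖((∑ k ∈ range (m + 1), α k : ℝ) : ℂ)‖ := by
    rw [Complex.norm_real, Real.norm_eq_abs]
  rw [h3, h2]
  refine (norm_sum_le _ _).trans ?_
  have h4 : ∀ i ∈ (univ : Finset (Fin (2 * m + 1))), ‖(tp m α β).eval (v i) *
      ∏ j ∈ univ.erase i, ((v i - v j)⁻¹ * (1 - v j))‖ ≤ δ * (2 / η) ^ (2 * m) := by
    intro i _
    rw [norm_mul]
    refine mul_le_mul ?_ ?_ (norm_nonneg _) hδ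
    · rw [hv]
      simp only
      rw [tp_eval, norm_mul]
      have e1 : ‖exp ((m : ℂ) * ((θ i : ℂ) * I))‖ = 1 := by
        have : (m : ℂ) * ((θ i : ℂ) * I) = ((m * θ i : ℝ) : ℂ) * I := by push_cast; ring
        rw [this, Complex.norm_exp_ofReal_mul_I]
      rw [e1, one_mul, Complex.norm_real, Real.norm_eq_abs]
      exact hval i
    · rw [norm_prod]
      have hc : (univ.erase i).card = 2 * m := by
        rw [card_erase_of_mem (mem_univ i), Finset.card_univ, Fintype.card_fin]
        omega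
      refine (Finset.prod_le_prod (g := fun _ => 2 / η) (fun j _ => norm_nonneg _)
        fun j hj => ?_).trans_eq (by rw [Finset.prod_const, hc])
      rw [norm_mul, norm_inv, div_eq_inv_mul]
      have hne : i ≠ j := (Finset.ne_of_mem_erase hj).symm
      refine mul_le_mul ?_ ?_ (norm_nonneg _) (by positivity)
      · exact inv_anti₀ hη (hsep i j hne)
      · refine (norm_sub_le _ _).trans ?_
        rw [norm_one, hv]
        simp only
        rw [Complex.norm_exp_ofReal_mul_I]
        norm_num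
  refine (Finset.sum_le_sum h4).trans ?_
  rw [Finset.sum_const, Finset.card_univ, Fintype.card_fin, nsmul_eq_mul]
  push_cast
  exact le_refl _

/-- separation of points of the unit circle -/
theorem sep {a b : ℝ} (h : |a - b| ≤ 2) : |a - b| / 2 ≤ ‖exp (a * I) - exp (b * I)‖ := by
  have h1 : exp (a * I) - exp (b * I) = exp (b * I) * (exp (I * ((a - b : ℝ) : ℂ)) - 1) := by
    rw [mul_sub, ← Complex.exp_add, mul_one]
    congr 2
    push_cast
    ring
  rw [h1, norm_mul, Complex.norm_exp_ofReal_mul_I, one_mul, Complex.norm_exp_I_mul_ofReal_sub_one,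
    Real.norm_eq_abs, abs_mul, abs_two]
  have h2 : |a - b| / 4 ≤ |Real.sin ((a - b) / 2)| := by
    rw [Real.abs_sin_eq_sin_abs_of_abs_le_pi (by
      rw [abs_div, abs_two]
      have := Real.pi_gt_three
      linarith)]
    rw [abs_div, abs_two]
    have h3 := Real.mul_le_sin (x := |a - b| / 2) (by positivity) (by
      have := Real.pi_gt_three
      linarith)
    have h4 : (1 / 2 : ℝ) ≤ 2 / Real.pi := by
      rw [div_le_div_iff₀ (by norm_num) Real.pi_pos]
      have := Real.pi_le_four
      linarith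
    have h5 : 0 ≤ |a - b| / 2 := by positivity
    nlinarith
  linarith

end Pool.Agent.V11232.DS
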