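import Mathlib
import Pool.Agent.V11232.DS.Near
import Pool.Agent.V11232.DS.Comb
import Pool.Agent.V11232.DS.Rigid

/-!
# The number of candidates
-/

set_option autoImplicit false

namespace Pool.Agent.V11232.DS

open Finset Pool.Agent.Helper981.KP

/-- `v / 2 ^ r` is the value at zero of a trigonometric polynomial whose graph passes near many
points of small complexity -/
def VV (U : List Bool →. List Bool) (code : ℚ × ℚ → List Bool) (m C h r : ℕ) (v : ℤ) : Prop :=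
  ∃ A B : List ℤ, v = ∑ k ∈ range (m + 1), A.getD k 0 ∧
    ∃ L : List ℕ, L.Nodup ∧ L.length = 2 ^ (r - r / h) ∧
      ∀ j ∈ L, j < 2 ^ r ∧ near U code m C h r A B j

/-- the constant in the block length -/
def c0 (m : ℕ) : ℕ := 4 * (2 * m + 1)

/-- the logarithm of the bound for the number of candidates -/
def bb (m C h r : ℕ) : ℕ := (2 * m + 1) + (C + 1) + 2 * m * (r / h + c0 m + 3) + 1 +
  (2 * m + 1) * (3 * (r / h) + C + c0 m + 4)

open Classical in
/-- the first position compatible with the output of the program `p` -/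
noncomputable def base (U : List Bool →. List Bool) (code : ℚ × ℚ → List Bool) (C r : ℕ)
    (p : List Bool) : ℕ :=
  if hq : ∃ q, code q ∈ U p then (⌈((hq.choose.1 : ℚ) : ℝ) * 2 ^ r - C⌉).toNat else 0

theorem base_bounds {U : List Bool →. List Bool} {code : ℚ × ℚ → List Bool}
    (hinj : Function.Injective code) {C r : ℕ} {p : List Bool} {q : ℚ × ℚ} (hq : code q ∈ U p)
    {j : ℕ} (hj : |(q.1 : ℝ) * 2 ^ r - j| ≤ C) :
    base U code C r p ≤ j ∧ j ≤ base U code C r p + 2 * C := by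
  have hex : ∃ q, code q ∈ U p := ⟨q, hq⟩
  have hch : hex.choose = q := hinj (Part.mem_unique hex.choose_spec hq)
  unfold base
  rw [dif_pos hex, hch]
  rw [abs_le] at hj
  constructor
  · rw [Int.toNat_le]
    rw [Int.ceil_le]
    push_cast
    linarith
  · have h1 := Int.le_ceil ((q.1 : ℝ) * 2 ^ r - C)
    have h2 : (⌈(q.1 : ℝ) * 2 ^ r - C⌉ : ℤ) ≤ ((⌈(q.1 : ℝ) * 2 ^ r - C⌉).toNat : ℤ) :=
      Int.self_le_toNat _
    have h3 : ((⌈(q.1 : ℝ) * 2 ^ r - C⌉ : ℤ) : ℝ) ≤ (((⌈(q.1 : ℝ) * 2 ^ r - C⌉).toNat : ℕ) : ℝ) := by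
      exact_mod_cast h2
    have h4 : (j : ℝ) ≤ (((⌈(q.1 : ℝ) * 2 ^ r - C⌉).toNat + 2 * C : ℕ) : ℝ) := by
      push_cast at h3 ⊢
      linarith
    exact_mod_cast h4

theorem two_mul_le (C : ℕ) : 2 * C + 1 ≤ 2 ^ (C + 1) := by
  induction C with
  | zero => norm_num
  | succ n ih =>
    rw [pow_succ]
    omega

theorem rig {m C h r e : ℕ} (he : e = r / h) (hr : 2 * e + c0 m + 2 ≤ r) {A B A' B' : List ℤ}
    {t : Fin (2 * m + 1) → ℕ} (ht : ∀ i, t i < 2 ^ r)
    (hsep : ∀ i i', i ≠ i' → t i + 2 ^ (r - e - c0 m) ≤ t i' ∨ t i' + 2 ^ (r - e - c0 m) ≤ t i)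
    (hval : ∀ i, |gR m r (t i) A B - gR m r (t i) A' B'| ≤ 2 * C) :
    ((∑ k ∈ range (m + 1), A.getD k 0) - ∑ k ∈ range (m + 1), A'.getD k 0).natAbs ≤
      2 ^ ((2 * m + 1) + (C + 1) + 2 * m * (e + c0 m + 3)) := by
  obtain ⟨hτ1, -, hτ2⟩ := tau_bounds r
  have hη : (0 : ℝ) < (1 / 2) ^ (e + c0 m + 2) := by positivity
  have hτ0 : 0 < tau r := lt_of_lt_of_le (by positivity) hτ2
  have hrng : ∀ i, 0 ≤ (t i : ℝ) * tau r ∧ (t i : ℝ) * tau r ≤ 1 := by
    intro i
    refine ⟨by positivity, ?_⟩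
    have h1 : (t i : ℝ) ≤ 2 ^ r := by exact_mod_cast (ht i).le
    calc (t i : ℝ) * tau r ≤ 2 ^ r * (1 / 2) ^ r := by gcongr
      _ = 1 := by rw [← mul_pow]; norm_num
  have h1 := rigid m (fun k => ((A.getD k 0 : ℤ) : ℝ) - ((A'.getD k 0 : ℤ) : ℝ))
    (fun k => ((B.getD k 0 : ℤ) : ℝ) - ((B'.getD k 0 : ℤ) : ℝ)) (fun i => (t i : ℝ) * tau r)
    (η := (1 / 2) ^ (e + c0 m + 2)) (δ := 2 * C) hη ?_ ?_
  · have h2 : |(((∑ k ∈ range (m + 1), A.getD k 0) - ∑ k ∈ range (m + 1), A'.getD k 0 : ℤ) : ℝ)| ≤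
        (2 : ℝ) ^ ((2 * m + 1) + (C + 1) + 2 * m * (e + c0 m + 3)) := by
      push_cast
      rw [Finset.sum_sub_distrib] at h1
      refine h1.trans ?_
      have e1 : (2 : ℝ) / (1 / 2) ^ (e + c0 m + 2) = 2 ^ (e + c0 m + 3) := by
        rw [div_eq_iff (by positivity), one_div, inv_pow]
        rw [pow_succ 2 (e + c0 m + 2)]
        field_simp
      have e2 : ((2 : ℝ) ^ (e + c0 m + 3)) ^ (2 * m) = 2 ^ (2 * m * (e + c0 m + 3)) := by
        rw [← pow_mul]; congr 1; ring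
      have e3 : ((2 * m + 1 : ℕ) : ℝ) ≤ 2 ^ (2 * m + 1) := by
        exact_mod_cast Nat.lt_two_pow_self.le
      have e4 : ((2 * C : ℕ) : ℝ) ≤ 2 ^ (C + 1) := by
        have := two_mul_le C
        exact_mod_cast (by omega : 2 * C ≤ 2 ^ (C + 1))
      push_cast at e3 e4
      rw [e1, e2, pow_add, pow_add]
      calc (2 * (m : ℝ) + 1) * (2 * (C : ℝ) * 2 ^ (2 * m * (e + c0 m + 3))) =
          ((2 * (m : ℝ) + 1) * (2 * (C : ℝ))) * 2 ^ (2 * m * (e + c0 m + 3)) := by ring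
        _ ≤ (2 ^ (2 * m + 1) * 2 ^ (C + 1)) * 2 ^ (2 * m * (e + c0 m + 3)) := by gcongr
    have h3 : (((∑ k ∈ range (m + 1), A.getD k 0) - ∑ k ∈ range (m + 1), A'.getD k 0).natAbs : ℝ) ≤
        (2 : ℝ) ^ ((2 * m + 1) + (C + 1) + 2 * m * (e + c0 m + 3)) := by
      rw [Nat.cast_natAbs, Int.cast_abs]
      exact h2
    exact_mod_cast h3
  · intro i i' hne
    have hd : |(t i : ℝ) * tau r - (t i' : ℝ) * tau r| ≤ 2 := by
      obtain ⟨a1, a2⟩ := hrng i
      obtain ⟨b1, b2⟩ := hrng i'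
      rw [abs_le]
      constructor <;> linarith
    have h2 := sep hd
    refine le_trans ?_ h2
    rw [← sub_mul, abs_mul, abs_of_pos hτ0]
    have h3 : (2 : ℝ) ^ (r - e - c0 m) ≤ |(t i : ℝ) - t i'| := by
      rcases hsep i i' hne with h | h
      · have : ((t i + 2 ^ (r - e - c0 m) : ℕ) : ℝ) ≤ (t i' : ℝ) := by exact_mod_cast h
        push_cast at this
        rw [abs_sub_comm]
        exact le_trans (by linarith) (le_abs_self _)
      · have : ((t i' + 2 ^ (r - e - c0 m) : ℕ) : ℝ) ≤ (t i : ℝ) := by exact_mod_cast h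
        push_cast at this
        exact le_trans (by linarith) (le_abs_self _)
    have h4 : (1 / 2 : ℝ) ^ (e + c0 m + 2) = 2 ^ (r - e - c0 m) * (1 / 2) ^ (r + 1) / 2 := by
      have h5 : r + 1 = (r - e - c0 m) + (e + c0 m + 1) := by omega
      rw [h5, pow_add (1 / 2 : ℝ) (r - e - c0 m), ← mul_assoc, ← mul_pow]
      rw [pow_succ (1 / 2 : ℝ) (e + c0 m + 1)]
      norm_num
      ring
    rw [h4]
    gcongr
  · intro i
    have h2 := hval i
    unfold gR at h2
    rw [← Finset.sum_sub_distrib] at h2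
    refine le_trans (le_of_eq ?_) h2
    congr 1
    refine Finset.sum_congr rfl fun k _ => ?_
    ring

/-- **There are few candidates.** -/
theorem card_le {U : List Bool →. List Bool} {code : ℚ × ℚ → List Bool}
    (hinj : Function.Injective code) {m C h r : ℕ} (hr : 2 * (r / h) + c0 m + 2 ≤ r) (S : Finset ℤ)
    (hS : ∀ v ∈ S, VV U code m C h r v) : S.card ≤ 2 ^ bb m C h r := by
  classical
  obtain ⟨e, he⟩ : ∃ e, e = r / h := ⟨_, rfl⟩
  rw [← he] at hr
  unfold VV at hS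
  choose! A B hv L hL1 hL2 hL3 using hS
  have h3 : ∀ v ∈ S, ∀ j ∈ L v, ∃ (p : List Bool) (q : ℚ × ℚ), p.length ≤ r + r / h ∧
      code q ∈ U p ∧ |(q.1 : ℝ) * 2 ^ r - j| ≤ C ∧
        |(q.2 : ℝ) * 2 ^ r - gR m r j (A v) (B v)| ≤ C := fun v hv j hj => (hL3 v hv j hj).2
  choose! p q hp hpU hq1 hq2 using h3
  have hsel : ∀ v ∈ S, ∃ sel : Fin (2 * m + 1) → ℕ,
      (∀ i i', i ≠ i' → sel i + 2 ≤ sel i' ∨ sel i' + 2 ≤ sel i) ∧
      ∀ i, 2 ^ (r - 2 * e - c0 m - 2) ≤
        ((L v).toFinset.filter fun j => j / 2 ^ (r - e - c0 m) = sel i).card := by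
    intro v hv
    refine exists_sel (K := 2 ^ (e + c0 m)) (by positivity) _ ?_ ?_
    · intro j hj
      rw [List.mem_toFinset] at hj
      rw [← pow_add]
      have : e + c0 m + (r - e - c0 m) = r := by omega
      rw [this]
      exact (hL3 v hv j hj).1
    · rw [List.toFinset_card_of_nodup (hL1 v hv), hL2 v hv, ← he]
      have e1 : 2 ^ (e + c0 m) * 2 ^ (r - 2 * e - c0 m - 2) = 2 ^ (r - e - 2) := by
        rw [← pow_add]; congr 1; omega
      have e2 : 2 * (2 * m + 1) * 2 ^ (r - e - c0 m) < 2 ^ (r - e - 1) := by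
        have a1 : 2 * (2 * (2 * m + 1)) < 2 ^ c0 m := by
          unfold c0
          have := Nat.lt_two_pow_self (n := 4 * (2 * m + 1))
          omega
        have a2 : 2 ^ (r - e - 1) * 2 = 2 ^ c0 m * 2 ^ (r - e - c0 m) := by
          rw [← pow_succ, ← pow_add]; congr 1; omega
        have a3 : 2 * (2 * (2 * m + 1)) * 2 ^ (r - e - c0 m) < 2 ^ c0 m * 2 ^ (r - e - c0 m) :=
          Nat.mul_lt_mul_of_pos_right a1 (by positivity)
        rw [← a2, mul_assoc] at a3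
        omega
      have e3 : 2 ^ (r - e) = 2 ^ (r - e - 1) * 2 := by rw [← pow_succ]; congr 1; omega
      have e4 : 2 ^ (r - e - 1) = 2 ^ (r - e - 2) * 2 := by rw [← pow_succ]; congr 1; omega
      rw [e1]
      omega
  choose! sel hsel1 hsel2 using hsel
  have hjb : ∀ v ∈ S, ∀ j ∈ L v, base U code C r (p v j) ≤ j ∧ j ≤ base U code C r (p v j) + 2 * C :=
    fun v hv j hj => base_bounds hinj (hpU v hv j hj) (hq1 v hv j hj)
  have hmain := dcount (ζ := List Bool × ℕ) (D := 2 * m + 1) (ℓ := 2 ^ (r - e - c0 m))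
    (θ := 2 ^ (r - 2 * e - c0 m - 2)) (P := 2 ^ ((2 * m + 1) + (C + 1) + 2 * m * (e + c0 m + 3)))
    (by positivity) S (fun v => (L v).toFinset) (strs (r + e) ×ˢ range (2 * C + 1))
    (fun v j => (p v j, j - base U code C r (p v j))) (fun x => base U code C r x.1 + x.2)
    ?_ ?_ sel hsel1 hsel2 ?_
  · have hZ : (strs (r + e) ×ˢ range (2 * C + 1)).card ≤ 2 ^ (r + e + C + 2) := by
      rw [card_product, card_range]
      have h4 := card_strs (r + e)
      have h5 := two_mul_le C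
      calc (strs (r + e)).card * (2 * C + 1) ≤ 2 ^ (r + e + 1) * 2 ^ (C + 1) :=
            Nat.mul_le_mul (by omega) h5
        _ = 2 ^ (r + e + C + 2) := by rw [← pow_add]; congr 1; omega
    have h6 : S.card * (2 ^ (r - 2 * e - c0 m - 2)) ^ (2 * m + 1) ≤
        2 ^ ((2 * m + 1) + (C + 1) + 2 * m * (e + c0 m + 3) + 1) *
          (2 ^ (r + e + C + 2)) ^ (2 * m + 1) := by
      refine hmain.trans (Nat.mul_le_mul ?_ (Nat.pow_le_pow_left hZ _))
      rw [pow_succ 2 ((2 * m + 1) + (C + 1) + 2 * m * (e + c0 m + 3))]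
      have : 1 ≤ 2 ^ ((2 * m + 1) + (C + 1) + 2 * m * (e + c0 m + 3)) := Nat.one_le_two_pow
      omega
    have h7 : (2 ^ (r + e + C + 2)) ^ (2 * m + 1) = 2 ^ ((2 * m + 1) * (3 * e + C + c0 m + 4)) *
        (2 ^ (r - 2 * e - c0 m - 2)) ^ (2 * m + 1) := by
      rw [← pow_mul, ← pow_mul, ← pow_add]
      congr 1
      have : r + e + C + 2 = (3 * e + C + c0 m + 4) + (r - 2 * e - c0 m - 2) := by omega
      rw [this]
      ring
    rw [h7, ← mul_assoc, ← pow_add] at h6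
    have h8 := Nat.le_of_mul_le_mul_right h6 (by positivity)
    refine h8.trans_eq ?_
    unfold bb
    rw [← he]
  · intro v hv j hj
    rw [List.mem_toFinset] at hj
    rw [mem_product]
    refine ⟨mem_strs ?_, mem_range.2 ?_⟩
    · rw [he]
      exact hp v hv j hj
    · have := hjb v hv j hj
      simp only
      omega
  · intro v hv j hj
    rw [List.mem_toFinset] at hj
    have := hjb v hv j hj
    simp only
    omega
  · intro v hv' v' hv'' t ht1 ht2 hlab hsep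
    rw [hv v hv', hv v' hv'']
    have hq' : ∀ i, q v (t i) = q v' (t i) := by
      intro i
      have h4 := hlab i
      rw [Prod.mk.injEq] at h4
      have m1 := List.mem_toFinset.1 (ht1 i)
      have m2 := List.mem_toFinset.1 (ht2 i)
      have h5 := hpU v hv' _ m1
      have h6 := hpU v' hv'' _ m2
      rw [h4.1] at h5
      exact hinj (Part.mem_unique h5 h6)
    refine rig (h := h) (B := B v) (B' := B v') he hr
      (fun i => (hL3 v hv' _ (List.mem_toFinset.1 (ht1 i))).1) hsep fun i => ?_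
    have h4 := hq2 v hv' _ (List.mem_toFinset.1 (ht1 i))
    have h5 := hq2 v' hv'' _ (List.mem_toFinset.1 (ht2 i))
    rw [hq' i] at h4
    rw [abs_le] at h4 h5 ⊢
    constructor <;> linarith [h4.1, h4.2, h5.1, h5.2]

end Pool.Agent.V11232.DS
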