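import Mathlib
import Pool.Agent.V11232.DS.Count

/-!
# The candidates have small complexity
-/

set_option autoImplicit false

namespace Pool.Agent.V11232.DS

open Finset Pool.Agent.Helper926 Pool.Agent.Helper981.KP

theorem re_VV {U : List Bool →. List Bool} (hU : Partrec U) {code : ℚ × ℚ → List Bool}
    {c : ℤ × ℕ × ℤ × ℕ → List Bool} (hcc : Computable c)
    (hc : ∀ q, code q = c (q.1.num, q.1.den, q.2.num, q.2.den)) (m C h : ℕ) :
    REPred fun x : ℕ × ℤ => VV U code m C h x.1 x.2 := by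
  refine RE.ex (p := fun (x : ℕ × ℤ) (A : List ℤ) => ∃ B : List ℤ,
    x.2 = ∑ k ∈ range (m + 1), A.getD k 0 ∧
    ∃ L : List ℕ, L.Nodup ∧ L.length = 2 ^ (x.1 - x.1 / h) ∧
      ∀ j ∈ L, j < 2 ^ x.1 ∧ near U code m C h x.1 A B j) ?_
  refine RE.ex (p := fun (x : (ℕ × ℤ) × List ℤ) (B : List ℤ) =>
    x.1.2 = ∑ k ∈ range (m + 1), x.2.getD k 0 ∧
    ∃ L : List ℕ, L.Nodup ∧ L.length = 2 ^ (x.1.1 - x.1.1 / h) ∧
      ∀ j ∈ L, j < 2 ^ x.1.1 ∧ near U code m C h x.1.1 x.2 B j) ?_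
  have hr : Computable fun y : ((ℕ × ℤ) × List ℤ) × List ℤ => y.1.1.1 := by fun_prop
  have hv : Computable fun y : ((ℕ × ℤ) × List ℤ) × List ℤ => y.1.1.2 := by fun_prop
  have hA : Computable fun y : ((ℕ × ℤ) × List ℤ) × List ℤ => y.1.2 := by fun_prop
  have hB : Computable fun y : ((ℕ × ℤ) × List ℤ) × List ℤ => y.2 := by fun_prop
  refine RE.and (RE.eq hv (csum (F := fun k (y : ((ℕ × ℤ) × List ℤ) × List ℤ) =>
    y.1.2.getD k 0) (fun k => cgetD k hA) (m + 1))) ?_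
  refine cnt (p := fun (y : ((ℕ × ℤ) × List ℤ) × List ℤ) (j : ℕ) => j < 2 ^ y.1.1.1 ∧
    near U code m C h y.1.1.1 y.1.2 y.2 j) ?_
    (cpow (Computable.const 2) (RE.csub hr (cdiv hr (Computable.const h))))
  refine RE.and (RE.lt Computable.snd (cpow (Computable.const 2) (hr.comp Computable.fst))) ?_
  refine (RE.comp (re_nearZ hU hcc m C h)
    (f := fun z : (((ℕ × ℤ) × List ℤ) × List ℤ) × ℕ => (z.1.1.1.1, z.1.1.2, z.1.2, z.2))
    (by fun_prop)).of_eq fun z => ?_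
  exact (near_iff hc m C h _ _ _ _).symm

/-- the output `code (0, v / 2 ^ r)` as a recursively enumerable relation -/
def outp (c : ℤ × ℕ × ℤ × ℕ → List Bool) (x : ℕ × ℤ × List Bool) : Prop :=
  ∃ y : ℤ × ℕ × ℤ × ℤ, 0 < y.2.1 ∧ y.1 * y.2.2.1 + (y.2.1 : ℤ) * y.2.2.2 = 1 ∧
    y.1 * ((2 ^ x.1 : ℕ) : ℤ) = x.2.1 * (y.2.1 : ℤ) ∧ x.2.2 = c (0, 1, y.1, y.2.1)

theorem re_outp {c : ℤ × ℕ × ℤ × ℕ → List Bool} (hcc : Computable c) : REPred (outp c) := by
  refine RE.ex (p := fun (x : ℕ × ℤ × List Bool) (y : ℤ × ℕ × ℤ × ℤ) => 0 < y.2.1 ∧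
    y.1 * y.2.2.1 + (y.2.1 : ℤ) * y.2.2.2 = 1 ∧
    y.1 * ((2 ^ x.1 : ℕ) : ℤ) = x.2.1 * (y.2.1 : ℤ) ∧ x.2.2 = c (0, 1, y.1, y.2.1)) ?_
  have hr : Computable fun z : (ℕ × ℤ × List Bool) × (ℤ × ℕ × ℤ × ℤ) => z.1.1 := by fun_prop
  have hv : Computable fun z : (ℕ × ℤ × List Bool) × (ℤ × ℕ × ℤ × ℤ) => z.1.2.1 := by fun_prop
  have hw : Computable fun z : (ℕ × ℤ × List Bool) × (ℤ × ℕ × ℤ × ℤ) => z.1.2.2 := by fun_prop
  have hn : Computable fun z : (ℕ × ℤ × List Bool) × (ℤ × ℕ × ℤ × ℤ) => z.2.1 := by fun_prop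
  have hd : Computable fun z : (ℕ × ℤ × List Bool) × (ℤ × ℕ × ℤ × ℤ) => z.2.2.1 := by fun_prop
  have ha : Computable fun z : (ℕ × ℤ × List Bool) × (ℤ × ℕ × ℤ × ℤ) => z.2.2.2.1 := by fun_prop
  have hb : Computable fun z : (ℕ × ℤ × List Bool) × (ℤ × ℕ × ℤ × ℤ) => z.2.2.2.2 := by fun_prop
  refine RE.and (RE.lt (Computable.const 0) hd) (RE.and ?_ (RE.and ?_ ?_))
  · exact RE.eq (ciadd (cimul hn ha) (cimul (cicast hd) hb)) (Computable.const 1)
  · exact RE.eq (cimul hn (cicast (cpow (Computable.const 2) hr))) (cimul hv (cicast hd))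
  · exact RE.eq hw (hcc.comp ((Computable.const 0).pair ((Computable.const 1).pair
      (hn.pair hd))))

theorem outp_iff {code : ℚ × ℚ → List Bool} {c : ℤ × ℕ × ℤ × ℕ → List Bool}
    (hc : ∀ q, code q = c (q.1.num, q.1.den, q.2.num, q.2.den)) (r : ℕ) (v : ℤ) (w : List Bool) :
    outp c (r, v, w) ↔ w = code (0, (v : ℚ) / 2 ^ r) := by
  constructor
  · rintro ⟨⟨n, d, a, b⟩, h1, h2, h3, h4⟩
    simp only at h1 h2 h3 h4
    have hcop : Nat.Coprime n.natAbs (d : ℤ).natAbs := by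
      have : IsCoprime n (d : ℤ) := ⟨a, b, by rw [← h2]; ring⟩
      exact Int.isCoprime_iff_gcd_eq_one.1 this
    have hd' : (0 : ℤ) < d := by exact_mod_cast h1
    have g1 := Rat.num_div_eq_of_coprime hd' hcop
    have g2 := Rat.den_div_eq_of_coprime hd' hcop
    push_cast at g1 g2
    have g3 : (n : ℚ) / d = (v : ℚ) / 2 ^ r := by
      rw [div_eq_div_iff (by positivity) (by positivity)]
      exact_mod_cast h3
    rw [g3] at g1 g2
    rw [h4, hc]
    simp only [Rat.num_ofNat, Rat.den_ofNat]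
    rw [g1]
    have g4 : ((v : ℚ) / 2 ^ r).den = d := by exact_mod_cast g2
    rw [g4]
  · intro hw
    obtain ⟨a, b, hab⟩ := (Int.isCoprime_iff_gcd_eq_one.2 (by
        rw [Int.gcd, Int.natAbs_natCast]; exact ((v : ℚ) / 2 ^ r).reduced) :
        IsCoprime ((v : ℚ) / 2 ^ r).num (((v : ℚ) / 2 ^ r).den : ℤ))
    refine ⟨(((v : ℚ) / 2 ^ r).num, ((v : ℚ) / 2 ^ r).den, a, b), ((v : ℚ) / 2 ^ r).pos, ?_, ?_, ?_⟩
    · simp only
      rw [← hab]; ring
    · simp only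
      have h1 := Rat.num_div_den ((v : ℚ) / 2 ^ r)
      have h2 : (((v : ℚ) / 2 ^ r).den : ℚ) ≠ 0 := by
        exact_mod_cast ((v : ℚ) / 2 ^ r).den_nz
      rw [div_eq_div_iff h2 (by positivity)] at h1
      have h3 : (((v : ℚ) / 2 ^ r).num : ℚ) * ((2 ^ r : ℕ) : ℚ) =
          (v : ℚ) * (((v : ℚ) / 2 ^ r).den : ℚ) := by
        push_cast
        exact h1
      exact_mod_cast h3
    · simp only
      rw [hw, hc]
      simp

/-- **The candidates have small complexity.** -/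
theorem cand {U : List Bool →. List Bool} (hU : OptimalPF U) {code : ℚ × ℚ → List Bool}
    (hcode : IsCoding code) (m C h : ℕ) : ∃ c' : ℕ, ∀ r : ℕ, 2 * (r / h) + c0 m + 2 ≤ r →
      ∀ v : ℤ, VV U code m C h r v →
        KPof U (code (0, (v : ℚ) / 2 ^ r)) ≤ 2 * bb m C h r + 2 * Nat.size r + c' := by
  classical
  obtain ⟨hinj, c, hcc, hc⟩ := hcode
  have hbb : Computable fun r => bb m C h r := by
    unfold bb c0
    fun_prop
  have hV := re_VV hU.1.1 hcc hc m C h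
  have hW : REPred fun x : ℕ × ℕ × List Bool => ∃ v : ℤ, VV U code m C h x.1 v ∧
      (∃ L : List ℤ, L.Nodup ∧ L.length = x.2.1 / 2 ^ bb m C h x.1 ∧
        ∀ u ∈ L, u < v ∧ VV U code m C h x.1 u) ∧
      (∃ L : List ℤ, L.Nodup ∧ L.length = x.2.1 % 2 ^ bb m C h x.1 ∧
        ∀ u ∈ L, v < u ∧ VV U code m C h x.1 u) ∧ outp c (x.1, v, x.2.2) := by
    refine RE.ex (p := fun (x : ℕ × ℕ × List Bool) (v : ℤ) => VV U code m C h x.1 v ∧
      (∃ L : List ℤ, L.Nodup ∧ L.length = x.2.1 / 2 ^ bb m C h x.1 ∧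
        ∀ u ∈ L, u < v ∧ VV U code m C h x.1 u) ∧
      (∃ L : List ℤ, L.Nodup ∧ L.length = x.2.1 % 2 ^ bb m C h x.1 ∧
        ∀ u ∈ L, v < u ∧ VV U code m C h x.1 u) ∧ outp c (x.1, v, x.2.2)) ?_
    refine RE.and (RE.comp hV (f := fun y : (ℕ × ℕ × List Bool) × ℤ => (y.1.1, y.2))
      (by fun_prop)) (RE.and ?_ (RE.and ?_ ?_))
    · refine cnt (p := fun (y : (ℕ × ℕ × List Bool) × ℤ) (u : ℤ) => u < y.2 ∧
        VV U code m C h y.1.1 u) ?_ (cdiv (by fun_prop) (cpow (Computable.const 2)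
          (hbb.comp (by fun_prop))))
      exact RE.and (ilt (by fun_prop) (by fun_prop)) (RE.comp hV
        (f := fun z : ((ℕ × ℕ × List Bool) × ℤ) × ℤ => (z.1.1.1, z.2)) (by fun_prop))
    · refine cnt (p := fun (y : (ℕ × ℕ × List Bool) × ℤ) (u : ℤ) => y.2 < u ∧
        VV U code m C h y.1.1 u) ?_ (cmod (by fun_prop) (cpow (Computable.const 2)
          (hbb.comp (by fun_prop))))
      exact RE.and (ilt (by fun_prop) (by fun_prop)) (RE.comp hV
        (f := fun z : ((ℕ × ℕ × List Bool) × ℤ) × ℤ => (z.1.1.1, z.2)) (by fun_prop))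
    · exact RE.comp (re_outp hcc)
        (f := fun y : (ℕ × ℕ × List Bool) × ℤ => (y.1.1, y.2, y.1.2.2)) (by fun_prop)
  obtain ⟨c', hc'⟩ := machine hU (b := fun r => 2 * bb m C h r) (by fun_prop)
    (W := fun r i w => ∃ v : ℤ, VV U code m C h r v ∧
      (∃ L : List ℤ, L.Nodup ∧ L.length = i / 2 ^ bb m C h r ∧
        ∀ u ∈ L, u < v ∧ VV U code m C h r u) ∧
      (∃ L : List ℤ, L.Nodup ∧ L.length = i % 2 ^ bb m C h r ∧
        ∀ u ∈ L, v < u ∧ VV U code m C h r u) ∧ outp c (r, v, w)) hW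
  refine ⟨c', fun r hr v hv => ?_⟩
  have hfin : {v | VV U code m C h r v}.Finite := by
    by_contra hinf
    obtain ⟨t, ht, htc⟩ := Set.Infinite.exists_subset_card_eq hinf (2 ^ bb m C h r + 1)
    have := card_le hinj hr t (fun v hv => ht hv)
    omega
  obtain ⟨S, hS⟩ : ∃ S : Finset ℤ, ∀ v, v ∈ S ↔ VV U code m C h r v :=
    ⟨hfin.toFinset, fun v => by simp⟩
  have hScard := card_le hinj hr S (fun v hv => (hS v).1 hv)
  have hvS : v ∈ S := (hS v).2 hv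
  obtain ⟨lo, hlo⟩ : ∃ lo, lo = (S.filter fun u => u < v).card := ⟨_, rfl⟩
  obtain ⟨hi, hhi⟩ : ∃ hi, hi = (S.filter fun u => v < u).card := ⟨_, rfl⟩
  have hlo1 : lo < 2 ^ bb m C h r := by
    refine lt_of_lt_of_le ?_ hScard
    rw [hlo]
    refine Finset.card_lt_card ⟨filter_subset _ _, fun hh => ?_⟩
    have := (mem_filter.1 (hh hvS)).2
    omega
  have hhi1 : hi < 2 ^ bb m C h r := by
    refine lt_of_lt_of_le ?_ hScard
    rw [hhi]
    refine Finset.card_lt_card ⟨filter_subset _ _, fun hh => ?_⟩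
    have := (mem_filter.1 (hh hvS)).2
    omega
  have hX : 0 < 2 ^ bb m C h r := by positivity
  have hdiv : (lo * 2 ^ bb m C h r + hi) / 2 ^ bb m C h r = lo := by
    rw [mul_comm, Nat.mul_add_div hX, Nat.div_eq_of_lt hhi1, add_zero]
  have hmod : (lo * 2 ^ bb m C h r + hi) % 2 ^ bb m C h r = hi := by
    rw [mul_comm, Nat.mul_add_mod, Nat.mod_eq_of_lt hhi1]
  have hlt : lo * 2 ^ bb m C h r + hi < 2 ^ (2 * bb m C h r) := by
    rw [two_mul, pow_add]
    calc lo * 2 ^ bb m C h r + hi < lo * 2 ^ bb m C h r + 2 ^ bb m C h r := by omega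
      _ = (lo + 1) * 2 ^ bb m C h r := by ring
      _ ≤ 2 ^ bb m C h r * 2 ^ bb m C h r := Nat.mul_le_mul_right _ hlo1
  refine hc' r (lo * 2 ^ bb m C h r + hi) _ hlt ?_ ?_
  · refine ⟨v, hv, ⟨(S.filter fun u => u < v).toList, nodup_toList _, ?_, ?_⟩,
      ⟨(S.filter fun u => v < u).toList, nodup_toList _, ?_, ?_⟩, (outp_iff hc _ _ _).2 rfl⟩
    · rw [hdiv, length_toList, hlo]
    · intro u hu
      rw [mem_toList, mem_filter] at hu
      exact ⟨hu.2, (hS u).1 hu.1⟩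
    · rw [hmod, length_toList, hhi]
    · intro u hu
      rw [mem_toList, mem_filter] at hu
      exact ⟨hu.2, (hS u).1 hu.1⟩
  · rintro w' ⟨v', hv', ⟨L1, hn1, hl1, hL1⟩, ⟨L2, hn2, hl2, hL2⟩, ho⟩
    rw [hdiv] at hl1
    rw [hmod] at hl2
    rw [outp_iff hc] at ho
    rw [ho]
    have hv'S : v' ∈ S := (hS v').2 hv'
    have hvv : v' = v := by
      rcases lt_trichotomy v' v with hlt' | heq | hgt
      · exfalso
        have h1 : L1.toFinset ⊆ S.filter fun u => u < v' := by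
          intro u hu
          rw [List.mem_toFinset] at hu
          exact mem_filter.2 ⟨(hS u).2 (hL1 u hu).2, (hL1 u hu).1⟩
        have h2 := Finset.card_le_card h1
        rw [List.toFinset_card_of_nodup hn1, hl1] at h2
        have h3 : (S.filter fun u => u < v').card < (S.filter fun u => u < v).card := by
          refine Finset.card_lt_card ⟨fun u hu => ?_, fun hh => ?_⟩
          · rw [mem_filter] at hu ⊢
            exact ⟨hu.1, by omega⟩
          · have := (mem_filter.1 (hh (mem_filter.2 ⟨hv'S, hlt'⟩))).2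
            omega
        omega
      · exact heq
      · exfalso
        have h1 : L2.toFinset ⊆ S.filter fun u => v' < u := by
          intro u hu
          rw [List.mem_toFinset] at hu
          exact mem_filter.2 ⟨(hS u).2 (hL2 u hu).2, (hL2 u hu).1⟩
        have h2 := Finset.card_le_card h1
        rw [List.toFinset_card_of_nodup hn2, hl2] at h2
        have h3 : (S.filter fun u => v' < u).card < (S.filter fun u => v < u).card := by
          refine Finset.card_lt_card ⟨fun u hu => ?_, fun hh => ?_⟩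
          · rw [mem_filter] at hu ⊢
            exact ⟨hu.1, by omega⟩
          · have := (mem_filter.1 (hh (mem_filter.2 ⟨hv'S, hgt⟩))).2
            omega
        omega
    rw [hvv]

/-- **Upper bound for the dyadic points over zero.** -/
theorem upper0 {U : List Bool →. List Bool} (hU : OptimalPF U) {code : ℚ × ℚ → List Bool}
    (hcode : IsCoding code) (M : ℕ) : ∃ c' : ℕ, ∀ (r : ℕ) (v : ℤ), v.natAbs ≤ M * 2 ^ r →
        KPof U (code (0, (v : ℚ) / 2 ^ r)) ≤ r + 2 * Nat.size r + c' := by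
  obtain ⟨hinj, c, hcc, hc⟩ := hcode
  have hW : REPred fun x : ℕ × ℕ × List Bool =>
      outp c (x.1, (x.2.1 : ℤ) - ((M * 2 ^ x.1 : ℕ) : ℤ), x.2.2) :=
    RE.comp (re_outp hcc) (f := fun x : ℕ × ℕ × List Bool =>
      (x.1, (x.2.1 : ℤ) - ((M * 2 ^ x.1 : ℕ) : ℤ), x.2.2)) (by fun_prop)
  obtain ⟨c', hc'⟩ := machine hU (b := fun r => r + (2 * M + 1)) (by fun_prop)
    (W := fun r i w => outp c (r, (i : ℤ) - ((M * 2 ^ r : ℕ) : ℤ), w)) hW
  refine ⟨2 * M + 1 + c', fun r v hv => ?_⟩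
  have hX : 0 < 2 ^ r := by positivity
  have h1 := hc' r (v + ((M * 2 ^ r : ℕ) : ℤ)).toNat (code (0, (v : ℚ) / 2 ^ r)) ?_ ?_ ?_
  · omega
  · have h2 : (v + ((M * 2 ^ r : ℕ) : ℤ)).toNat ≤ 2 * M * 2 ^ r := by
      have : 2 * M * 2 ^ r = M * 2 ^ r + M * 2 ^ r := by ring
      omega
    have h3 : 2 * M < 2 ^ (2 * M + 1) := lt_of_lt_of_le Nat.lt_two_pow_self
      (Nat.pow_le_pow_right (by norm_num) (by omega))
    calc (v + ((M * 2 ^ r : ℕ) : ℤ)).toNat ≤ 2 * M * 2 ^ r := h2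
      _ < 2 ^ (2 * M + 1) * 2 ^ r := Nat.mul_lt_mul_of_pos_right h3 hX
      _ = 2 ^ (r + (2 * M + 1)) := by rw [← pow_add, add_comm]
  · rw [outp_iff hc]
    congr 2
    have : (((v + ((M * 2 ^ r : ℕ) : ℤ)).toNat : ℤ) - ((M * 2 ^ r : ℕ) : ℤ)) = v := by omega
    rw [this]
  · intro w' hw'
    rw [outp_iff hc] at hw'
    rw [hw']
    congr 2
    have : (((v + ((M * 2 ^ r : ℕ) : ℤ)).toNat : ℤ) - ((M * 2 ^ r : ℕ) : ℤ)) = v := by omega
    rw [this]

end Pool.Agent.V11232.DS
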