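import Mathlib
import Pool.Agent.V11232.DS.Cand

/-!
# Measure estimates
-/

set_option autoImplicit false

namespace Pool.Agent.V11232.DS

open Finset Pool.Agent.Helper981.KP MeasureTheory Filter
open scoped ENNReal

/-- the least complexity `K_r(z)` of a rational point at distance less than `2 ^ (-r)` from `z` -/
noncomputable def Kr (U : List Bool →. List Bool) (code : ℚ × ℚ → List Bool) (z : ℝ × ℝ)
    (r : ℕ) : ℕ :=
  sInf {k : ℕ | ∃ q : ℚ × ℚ, √(((q.1 : ℝ) - z.1) ^ 2 + ((q.2 : ℝ) - z.2) ^ 2) < (1 / 2) ^ r ∧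
    KPof U (code q) = k}

theorem Kr_le {U : List Bool →. List Bool} {code : ℚ × ℚ → List Bool} {z : ℝ × ℝ} {r : ℕ}
    {q : ℚ × ℚ} (h : √(((q.1 : ℝ) - z.1) ^ 2 + ((q.2 : ℝ) - z.2) ^ 2) < (1 / 2) ^ r) :
    Kr U code z r ≤ KPof U (code q) := Nat.sInf_le ⟨q, h, rfl⟩

theorem Kr_spec (U : List Bool →. List Bool) (code : ℚ × ℚ → List Bool) (z : ℝ × ℝ) (r : ℕ) :
    ∃ q : ℚ × ℚ, √(((q.1 : ℝ) - z.1) ^ 2 + ((q.2 : ℝ) - z.2) ^ 2) < (1 / 2) ^ r ∧
      KPof U (code q) = Kr U code z r := by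
  have hε : (0 : ℝ) < (1 / 2) ^ (r + 1) := by positivity
  obtain ⟨q1, h1, h2⟩ := exists_rat_btwn (show z.1 < z.1 + (1 / 2) ^ (r + 1) by linarith)
  obtain ⟨q2, h3, h4⟩ := exists_rat_btwn (show z.2 < z.2 + (1 / 2) ^ (r + 1) by linarith)
  have hlt : √(((q1 : ℝ) - z.1) ^ 2 + ((q2 : ℝ) - z.2) ^ 2) < (1 / 2) ^ r := by
    rw [Real.sqrt_lt' (by positivity)]
    have e : ((1 : ℝ) / 2) ^ r = 2 * (1 / 2) ^ (r + 1) := by rw [pow_succ]; ring
    rw [e]
    have a1 : ((q1 : ℝ) - z.1) ^ 2 ≤ ((1 / 2) ^ (r + 1)) ^ 2 := by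
      apply pow_le_pow_left₀ <;> linarith
    have a2 : ((q2 : ℝ) - z.2) ^ 2 ≤ ((1 / 2) ^ (r + 1)) ^ 2 := by
      apply pow_le_pow_left₀ <;> linarith
    nlinarith [pow_pos hε 2]
  have hne : {k : ℕ | ∃ q : ℚ × ℚ, √(((q.1 : ℝ) - z.1) ^ 2 + ((q.2 : ℝ) - z.2) ^ 2) <
      (1 / 2) ^ r ∧ KPof U (code q) = k}.Nonempty := ⟨_, (q1, q2), hlt, rfl⟩
  exact Nat.sInf_mem hne

/-- the set of points over which the graph has a point of small complexity is small -/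
theorem vol_le {U : List Bool →. List Bool} (hU : OptimalPF U) {code : ℚ × ℚ → List Bool}
    (hinj : Function.Injective code) (f : ℝ → ℝ) (r k : ℕ) :
    volume {x : ℝ | Kr U code (x, f x) r ≤ k} ≤ ENNReal.ofReal (2 ^ (k + 2) * (1 / 2) ^ r) := by
  classical
  have hsub : {x : ℝ | Kr U code (x, f x) r ≤ k} ⊆
      ⋃ p ∈ strs k, {x : ℝ | ∃ q, code q ∈ U p ∧ |(q.1 : ℝ) - x| < (1 / 2) ^ r} := by
    intro x hx
    obtain ⟨q, h1, h2⟩ := Kr_spec U code (x, f x) r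
    obtain ⟨p, h3, h4⟩ := KPof_spec (opt_total hU (code q))
    have hx' : Kr U code (x, f x) r ≤ k := hx
    refine Set.mem_iUnion₂.2 ⟨p, mem_strs (by omega), q, h3, lt_of_le_of_lt ?_ h1⟩
    exact Real.abs_le_sqrt (by nlinarith [sq_nonneg ((q.2 : ℝ) - f x)])
  have hB : ∀ p ∈ strs k, volume {x : ℝ | ∃ q, code q ∈ U p ∧ |(q.1 : ℝ) - x| < (1 / 2) ^ r} ≤
      ENNReal.ofReal (2 * (1 / 2) ^ r) := by
    intro p _
    by_cases hq : ∃ q, code q ∈ U p
    · obtain ⟨q, hq⟩ := hq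
      have : {x : ℝ | ∃ q, code q ∈ U p ∧ |(q.1 : ℝ) - x| < (1 / 2) ^ r} ⊆
          Set.Ioo ((q.1 : ℝ) - (1 / 2) ^ r) ((q.1 : ℝ) + (1 / 2) ^ r) := by
        rintro x ⟨q', h1, h2⟩
        have h3 : q' = q := hinj (Part.mem_unique h1 hq)
        rw [h3, abs_lt] at h2
        exact ⟨by linarith, by linarith⟩
      refine (measure_mono this).trans ?_
      rw [Real.volume_Ioo]
      exact ENNReal.ofReal_le_ofReal (by linarith)
    · have : {x : ℝ | ∃ q, code q ∈ U p ∧ |(q.1 : ℝ) - x| < (1 / 2) ^ r} = ∅ := by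
        ext x
        simp only [Set.mem_ofPred_eq, Set.mem_empty_iff_false, iff_false]
        rintro ⟨q, h1, -⟩
        exact hq ⟨q, h1⟩
      rw [this]
      simp
  refine (measure_mono hsub).trans ((measure_biUnion_finset_le _ _).trans
    ((Finset.sum_le_sum hB).trans ?_))
  rw [Finset.sum_const, nsmul_eq_mul]
  have hcard := card_strs k
  have h1 : ((strs k).card : ℝ≥0∞) = ENNReal.ofReal ((strs k).card : ℝ) := by
    rw [ENNReal.ofReal_natCast]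
  rw [h1, ← ENNReal.ofReal_mul (by positivity)]
  refine ENNReal.ofReal_le_ofReal ?_
  have h2 : ((strs k).card : ℝ) ≤ 2 ^ (k + 1) := by exact_mod_cast (by omega : (strs k).card ≤ 2 ^ (k + 1))
  calc ((strs k).card : ℝ) * (2 * (1 / 2) ^ r) ≤ 2 ^ (k + 1) * (2 * (1 / 2) ^ r) := by gcongr
    _ = 2 ^ (k + 2) * (1 / 2) ^ r := by ring

theorem summable_half {h : ℕ} (hh : 0 < h) : Summable fun r : ℕ => ((1 : ℝ) / 2) ^ (r / h) := by
  have h0 : (0 : ℝ) < 1 / 2 := by norm_num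
  have hρ0 : (0 : ℝ) ≤ (1 / 2 : ℝ) ^ ((1 : ℝ) / h) := Real.rpow_nonneg h0.le _
  have hρ1 : (1 / 2 : ℝ) ^ ((1 : ℝ) / h) < 1 :=
    Real.rpow_lt_one h0.le (by norm_num) (by positivity)
  refine Summable.of_nonneg_of_le (fun r => by positivity) (fun r => ?_)
    ((summable_geometric_of_lt_one hρ0 hρ1).mul_left 2)
  rw [← Real.rpow_natCast, ← Real.rpow_natCast, ← Real.rpow_mul h0.le]
  have e : (2 : ℝ) = (1 / 2 : ℝ) ^ (-1 : ℝ) := by
    rw [Real.rpow_neg h0.le, Real.rpow_one]; norm_num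
  have hh' : (0 : ℝ) < h := by exact_mod_cast hh
  calc (1 / 2 : ℝ) ^ (((r / h : ℕ)) : ℝ) ≤ (1 / 2 : ℝ) ^ (-1 + 1 / (h : ℝ) * r) := by
        refine Real.rpow_le_rpow_of_exponent_ge h0 (by norm_num) ?_
        have h1 : r < h * (r / h) + h := Nat.lt_mul_div_succ r hh |>.trans_eq (by ring)
        have h2 : (r : ℝ) < h * ((r / h : ℕ) : ℝ) + h := by exact_mod_cast h1
        have h3 : 1 / (h : ℝ) * r = r / h := by ring
        rw [h3]
        have h4 : (r : ℝ) / h < ((r / h : ℕ) : ℝ) + 1 := by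
          rw [div_lt_iff₀ hh']
          linarith
        linarith
    _ = 2 * (1 / 2 : ℝ) ^ (1 / (h : ℝ) * r) := by
        rw [Real.rpow_add h0, ← e]

/-- **Most points of the graph have large complexity.** -/
theorem exists_high {U : List Bool →. List Bool} (hU : OptimalPF U) {code : ℚ × ℚ → List Bool}
    (hinj : Function.Injective code) (f : ℝ → ℝ) :
    ∃ x : ℝ, ∀ᶠ r in atTop, 3 * r < 4 * Kr U code (x, f x) r := by
  have hs : (∑' r : ℕ, volume {x : ℝ | Kr U code (x, f x) r ≤ 3 * r / 4}) ≠ ∞ := by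
    refine ne_top_of_le_ne_top ((summable_half (h := 4) (by norm_num)).mul_left 4).tsum_ofReal_ne_top
      (ENNReal.tsum_le_tsum fun r => (vol_le hU hinj f r _).trans (ENNReal.ofReal_le_ofReal ?_))
    have h1 : r = 3 * r / 4 + (r - 3 * r / 4) := by omega
    have h2 : (1 / 2 : ℝ) ^ r = (1 / 2) ^ (3 * r / 4) * (1 / 2) ^ (r - 3 * r / 4) := by
      rw [← pow_add, ← h1]
    have h3 : (1 / 2 : ℝ) ^ (r - 3 * r / 4) ≤ (1 / 2) ^ (r / 4) :=
      pow_le_pow_of_le_one (by norm_num) (by norm_num) (by omega)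
    rw [h2]
    calc (2 : ℝ) ^ (3 * r / 4 + 2) * ((1 / 2) ^ (3 * r / 4) * (1 / 2) ^ (r - 3 * r / 4))
        = 4 * (2 * (1 / 2)) ^ (3 * r / 4) * (1 / 2) ^ (r - 3 * r / 4) := by
          rw [mul_pow, pow_add]; ring
      _ = 4 * (1 / 2) ^ (r - 3 * r / 4) := by norm_num
      _ ≤ 4 * (1 / 2) ^ (r / 4) := by gcongr
  have hae := ae_eventually_notMem hs
  obtain ⟨x, hx⟩ := hae.exists
  refine ⟨x, hx.mono fun r hr => ?_⟩
  have : ¬ Kr U code (x, f x) r ≤ 3 * r / 4 := hr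
  omega

/-- **If all points of the graph over `[0, 1 / 4]` have small complexity infinitely often, then for
infinitely many precisions many of them have.** -/
theorem freq_large {K : ℝ → ℕ → Prop} {h : ℕ} (hh : 0 < h)
    (hK : ∀ x ∈ Set.Icc (0 : ℝ) (1 / 4), ∃ᶠ r in atTop, K x r) :
    ∃ᶠ r in atTop, ENNReal.ofReal ((1 / 2) ^ (r / h)) ≤
      volume {x : ℝ | x ∈ Set.Icc (0 : ℝ) (1 / 4) ∧ K x r} := by
  by_contra hcon
  rw [not_frequently] at hcon
  obtain ⟨N, hN⟩ := eventually_atTop.1 hcon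
  have hs : (∑' r : ℕ, volume (if N ≤ r then {x : ℝ | x ∈ Set.Icc (0 : ℝ) (1 / 4) ∧ K x r}
      else ∅)) ≠ ∞ := by
    refine ne_top_of_le_ne_top (summable_half hh).tsum_ofReal_ne_top
      (ENNReal.tsum_le_tsum fun r => ?_)
    split_ifs with hr
    · exact (not_le.1 (hN r hr)).le
    · simp
  have hae := ae_eventually_notMem hs
  have hae2 : ∀ᵐ x ∂(volume : Measure ℝ), x ∉ Set.Icc (0 : ℝ) (1 / 4) := by
    refine hae.mono fun x hx hx2 => ?_
    have h1 := hK x hx2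
    have h2 : ∀ᶠ r in atTop, ¬ K x r := by
      filter_upwards [hx, eventually_ge_atTop N] with r h3 h4 h5
      rw [if_pos h4] at h3
      exact h3 ⟨hx2, h5⟩
    exact h1 h2
  rw [← measure_eq_zero_iff_ae_notMem, Real.volume_Icc, ENNReal.ofReal_eq_zero] at hae2
  norm_num at hae2

/-- **Many cells.** -/
theorem cells {E : Set ℝ} (hE : E ⊆ Set.Icc (0 : ℝ) (1 / 4)) {r e : ℕ} (he : e ≤ r)
    (hv : ENNReal.ofReal ((1 / 2) ^ e) ≤ volume E) : ∃ L : List ℕ, L.Nodup ∧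
      L.length = 2 ^ (r - e) ∧ ∀ j ∈ L, j < 2 ^ r ∧ ∃ x ∈ E, (j : ℝ) * tau r ≤ x ∧
        x ≤ (j + 1) * tau r := by
  classical
  obtain ⟨hτ1, hτ2, hτ3⟩ := tau_bounds r
  have hτ0 : 0 < tau r := lt_of_lt_of_le (by positivity) hτ3
  set J := (range (2 ^ r)).filter fun j : ℕ => ∃ x ∈ E, (j : ℝ) * tau r ≤ x ∧
        x ≤ (j + 1) * tau r with hJ
  have hsub : E ⊆ ⋃ j ∈ J, Set.Icc ((j : ℝ) * tau r) ((j + 1) * tau r) := by
    intro x hx
    have hx' := hE hx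
    have h0 : 0 ≤ x / tau r := div_nonneg hx'.1 hτ0.le
    have h1 := Nat.floor_le h0
    have h2 := Nat.lt_floor_add_one (x / tau r)
    rw [le_div_iff₀ hτ0] at h1
    rw [div_lt_iff₀ hτ0] at h2
    refine Set.mem_iUnion₂.2 ⟨⌊x / tau r⌋₊, ?_, h1, h2.le⟩
    rw [hJ, mem_filter, mem_range]
    refine ⟨?_, x, hx, h1, h2.le⟩
    rw [Nat.floor_lt h0, div_lt_iff₀ hτ0]
    push_cast
    have h3 : (2 : ℝ) ^ r * (1 / 2) ^ (r + 1) ≤ 2 ^ r * tau r := by gcongr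
    have h4 : (2 : ℝ) ^ r * (1 / 2) ^ (r + 1) = 1 / 2 := by
      rw [pow_succ, ← mul_assoc, ← mul_pow]; norm_num
    linarith [hx'.2]
  have hvol : ENNReal.ofReal ((1 / 2) ^ e) ≤ ENNReal.ofReal (J.card * (1 / 2) ^ r) := by
    refine hv.trans ((measure_mono hsub).trans ((measure_biUnion_finset_le _ _).trans ?_))
    have h1 : ∀ j ∈ J, volume (Set.Icc ((j : ℝ) * tau r) ((j + 1) * tau r)) ≤
        ENNReal.ofReal ((1 / 2) ^ r) := by
      intro j _
      rw [Real.volume_Icc]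
      exact ENNReal.ofReal_le_ofReal (by linarith)
    refine (Finset.sum_le_sum h1).trans ?_
    rw [Finset.sum_const, nsmul_eq_mul]
    have h2 : ((J.card : ℕ) : ℝ≥0∞) = ENNReal.ofReal (J.card : ℝ) := by
      rw [ENNReal.ofReal_natCast]
    rw [h2, ← ENNReal.ofReal_mul (by positivity)]
  rw [ENNReal.ofReal_le_ofReal_iff (by positivity)] at hvol
  have hcard : 2 ^ (r - e) ≤ J.card := by
    have h1 : (2 : ℝ) ^ (r - e) ≤ J.card := by
      have h2 : (2 : ℝ) ^ r * (1 / 2) ^ e = 2 ^ (r - e) := by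
        have h3 : r = (r - e) + e := by omega
        conv_lhs => rw [h3, pow_add]
        rw [mul_assoc, ← mul_pow]; norm_num
      have h4 : (2 : ℝ) ^ r * (1 / 2) ^ r = 1 := by rw [← mul_pow]; norm_num
      calc (2 : ℝ) ^ (r - e) = 2 ^ r * (1 / 2) ^ e := h2.symm
        _ ≤ 2 ^ r * (J.card * (1 / 2) ^ r) := by gcongr
        _ = J.card * (2 ^ r * (1 / 2) ^ r) := by ring
        _ = J.card := by rw [h4, mul_one]
    exact_mod_cast h1
  obtain ⟨J', hJ'1, hJ'2⟩ := Finset.exists_subset_card_eq hcard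
  refine ⟨J'.toList, nodup_toList _, by rw [length_toList, hJ'2], fun j hj => ?_⟩
  rw [mem_toList] at hj
  have := hJ'1 hj
  rw [hJ, mem_filter, mem_range] at this
  exact this

end Pool.Agent.V11232.DS
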