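import Mathlib
import Pool.Agent.V11232.DS.Meas

/-!
# The value at zero
-/

set_option autoImplicit false

namespace Pool.Agent.V11232.DS

open Finset Pool.Agent.Helper981.KP MeasureTheory Filter
open scoped ENNReal

/-- the list of the integer parts of `a k * 2 ^ r` -/
noncomputable def fl (m r : ℕ) (a : ℕ → ℝ) : List ℤ :=
  (List.range (m + 1)).map fun k => ⌊a k * 2 ^ r⌋

theorem fl_getD {m r k : ℕ} (a : ℕ → ℝ) (hk : k < m + 1) :
    (fl m r a).getD k 0 = ⌊a k * 2 ^ r⌋ := by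
  unfold fl
  rw [List.getD_eq_getElem?_getD, List.getElem?_map, List.getElem?_range hk]
  rfl

/-- a trigonometric polynomial -/
noncomputable def tr (m : ℕ) (a b : ℕ → ℝ) (x : ℝ) : ℝ :=
  ∑ k ∈ range (m + 1), (a k * Real.cos (k * x) + b k * Real.sin (k * x))

theorem tr_lip (m : ℕ) (a b : ℕ → ℝ) (x y : ℝ) :
    |tr m a b x - tr m a b y| ≤ (∑ k ∈ range (m + 1), (|a k| + |b k|) * k) * |x - y| := by
  unfold tr
  rw [← Finset.sum_sub_distrib, Finset.sum_mul]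
  refine (Finset.abs_sum_le_sum_abs _ _).trans (Finset.sum_le_sum fun k _ => ?_)
  have e : a k * Real.cos (k * x) + b k * Real.sin (k * x) -
      (a k * Real.cos (k * y) + b k * Real.sin (k * y)) =
      a k * (Real.cos (k * x) - Real.cos (k * y)) + b k * (Real.sin (k * x) - Real.sin (k * y)) := by
    ring
  rw [e]
  have h1 := Real.abs_cos_sub_cos_le (k * x) (k * y)
  have h2 := Real.abs_sin_sub_sin_le (k * x) (k * y)
  have h3 : |(k : ℝ) * x - k * y| = k * |x - y| := by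
    rw [← mul_sub, abs_mul, Nat.abs_cast]
  rw [h3] at h1 h2
  calc _ ≤ |a k * (Real.cos (k * x) - Real.cos (k * y))| +
        |b k * (Real.sin (k * x) - Real.sin (k * y))| := abs_add_le _ _
    _ = |a k| * |Real.cos (k * x) - Real.cos (k * y)| +
        |b k| * |Real.sin (k * x) - Real.sin (k * y)| := by rw [abs_mul, abs_mul]
    _ ≤ |a k| * (k * |x - y|) + |b k| * (k * |x - y|) := by gcongr
    _ = (|a k| + |b k|) * k * |x - y| := by ring

theorem gR_close (m r j : ℕ) (a b : ℕ → ℝ) :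
    |tr m a b (j * tau r) * 2 ^ r - gR m r j (fl m r a) (fl m r b)| ≤ 2 * (m + 1) := by
  unfold tr gR
  rw [Finset.sum_mul, ← Finset.sum_sub_distrib]
  refine (Finset.abs_sum_le_sum_abs _ _).trans ?_
  have h1 : ∀ k ∈ range (m + 1), |(a k * Real.cos (k * (j * tau r)) +
      b k * Real.sin (k * (j * tau r))) * 2 ^ r - ((((fl m r a).getD k 0 : ℤ) : ℝ) *
      Real.cos (k * (j * tau r)) + (((fl m r b).getD k 0 : ℤ) : ℝ) *
      Real.sin (k * (j * tau r)))| ≤ 2 := by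
    intro k hk
    rw [mem_range] at hk
    rw [fl_getD a hk, fl_getD b hk]
    have a1 := Int.floor_le (a k * 2 ^ r)
    have a2 := Int.lt_floor_add_one (a k * 2 ^ r)
    have b1 := Int.floor_le (b k * 2 ^ r)
    have b2 := Int.lt_floor_add_one (b k * 2 ^ r)
    have c1 := Real.abs_cos_le_one (k * (j * tau r))
    have c2 := Real.abs_sin_le_one (k * (j * tau r))
    have e : (a k * Real.cos (k * (j * tau r)) +
      b k * Real.sin (k * (j * tau r))) * 2 ^ r - ((⌊a k * 2 ^ r⌋ : ℝ) *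
      Real.cos (k * (j * tau r)) + (⌊b k * 2 ^ r⌋ : ℝ) *
      Real.sin (k * (j * tau r))) = (a k * 2 ^ r - ⌊a k * 2 ^ r⌋) * Real.cos (k * (j * tau r)) +
        (b k * 2 ^ r - ⌊b k * 2 ^ r⌋) * Real.sin (k * (j * tau r)) := by ring
    rw [e]
    have d1 : |a k * 2 ^ r - ⌊a k * 2 ^ r⌋| ≤ 1 := by rw [abs_le]; constructor <;> linarith
    have d2 : |b k * 2 ^ r - ⌊b k * 2 ^ r⌋| ≤ 1 := by rw [abs_le]; constructor <;> linarith
    calc _ ≤ |(a k * 2 ^ r - ⌊a k * 2 ^ r⌋) * Real.cos (k * (j * tau r))| +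
        |(b k * 2 ^ r - ⌊b k * 2 ^ r⌋) * Real.sin (k * (j * tau r))| := abs_add_le _ _
      _ ≤ 1 * 1 + 1 * 1 := by
        rw [abs_mul, abs_mul]
        gcongr
      _ = 2 := by norm_num
  refine (Finset.sum_le_sum h1).trans ?_
  rw [Finset.sum_const, card_range, nsmul_eq_mul]
  push_cast
  linarith

theorem near_of {U : List Bool →. List Bool} (hU : OptimalPF U) {code : ℚ × ℚ → List Bool}
    {m : ℕ} {a b : ℕ → ℝ} {C h r j : ℕ}
    (hC : 3 + (∑ k ∈ range (m + 1), (|a k| + |b k|) * k) + 2 * (m + 1) ≤ (C : ℝ))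
    (hj : j < 2 ^ r) {x : ℝ} (h1 : (j : ℝ) * tau r ≤ x) (h2 : x ≤ (j + 1) * tau r)
    (hK : Kr U code (x, tr m a b x) r ≤ r + r / h) :
    near U code m C h r (fl m r a) (fl m r b) j := by
  obtain ⟨hτ1, hτ2, hτ3⟩ := tau_bounds r
  obtain ⟨q, hq1, hq2⟩ := Kr_spec U code (x, tr m a b x) r
  obtain ⟨p, hp1, hp2⟩ := KPof_spec (opt_total hU (code q))
  obtain ⟨L, hL⟩ : ∃ L, L = ∑ k ∈ range (m + 1), (|a k| + |b k|) * k := ⟨_, rfl⟩
  rw [← hL] at hC
  have hL0 : 0 ≤ L := by rw [hL]; positivity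
  have hX : (0 : ℝ) < 2 ^ r := by positivity
  have hXX : (1 / 2 : ℝ) ^ r * 2 ^ r = 1 := by rw [← mul_pow]; norm_num
  have hm0 : (0 : ℝ) ≤ 2 * (m + 1) := by positivity
  have g1 : |(q.1 : ℝ) - x| ≤ (1 / 2) ^ r := by
    refine (Real.abs_le_sqrt ?_).trans hq1.le
    nlinarith [sq_nonneg ((q.2 : ℝ) - tr m a b x)]
  have g2 : |(q.2 : ℝ) - tr m a b x| ≤ (1 / 2) ^ r := by
    refine (Real.abs_le_sqrt ?_).trans hq1.le
    nlinarith [sq_nonneg ((q.1 : ℝ) - x)]
  have g3 : |x - j * tau r| ≤ (1 / 2) ^ r := by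
    rw [abs_le]
    constructor <;> linarith [show (0 : ℝ) ≤ (1 / 2) ^ r by positivity]
  have mulX : ∀ y : ℝ, |y| ≤ (1 / 2) ^ r → |y * 2 ^ r| ≤ 1 := by
    intro y hy
    rw [abs_mul, abs_of_pos hX, ← hXX]
    gcongr
  have k1 := mulX _ g1
  have k2 := mulX _ g2
  have k3 := mulX _ g3
  have k4 : |(j : ℝ) * tau r * 2 ^ r - j| ≤ 1 := by
    have hj' : (j : ℝ) ≤ 2 ^ r := by exact_mod_cast hj.le
    have e1 : (1 / 4 : ℝ) ^ r * 2 ^ r = (1 / 2) ^ r := by rw [← mul_pow]; norm_num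
    have e2 : tau r * 2 ^ r ≤ 1 := by rw [← hXX]; gcongr
    have e3 : 1 - (1 / 2) ^ r ≤ tau r * 2 ^ r := by
      have : ((1 / 2) ^ r - (1 / 4) ^ r) * 2 ^ r ≤ tau r * 2 ^ r := by gcongr
      rw [sub_mul, hXX, e1] at this
      exact this
    have e4 : (j : ℝ) * (1 / 2) ^ r ≤ 1 := by
      calc (j : ℝ) * (1 / 2) ^ r ≤ 2 ^ r * (1 / 2) ^ r := by gcongr
        _ = 1 := by rw [mul_comm, hXX]
    have hj0 : (0 : ℝ) ≤ j := by positivity
    rw [abs_le]
    constructor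
    · nlinarith [mul_le_mul_of_nonneg_left e3 hj0]
    · nlinarith [mul_le_mul_of_nonneg_left e2 hj0]
  refine ⟨p, q, by omega, hp1, ?_, ?_⟩
  · have e : (q.1 : ℝ) * 2 ^ r - j = ((q.1 : ℝ) - x) * 2 ^ r + (x - j * tau r) * 2 ^ r +
        ((j : ℝ) * tau r * 2 ^ r - j) := by ring
    rw [e]
    refine (abs_add_three _ _ _).trans ?_
    linarith
  · have e : (q.2 : ℝ) * 2 ^ r - gR m r j (fl m r a) (fl m r b) =
        ((q.2 : ℝ) - tr m a b x) * 2 ^ r + (tr m a b x - tr m a b (j * tau r)) * 2 ^ r +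
        (tr m a b (j * tau r) * 2 ^ r - gR m r j (fl m r a) (fl m r b)) := by ring
    rw [e]
    refine (abs_add_three _ _ _).trans ?_
    have k5 := gR_close m r j a b
    have k6 : |(tr m a b x - tr m a b (j * tau r)) * 2 ^ r| ≤ L := by
      have k7 := tr_lip m a b x (j * tau r)
      rw [← hL] at k7
      rw [abs_mul] at k3 ⊢
      calc |tr m a b x - tr m a b (j * tau r)| * |(2 : ℝ) ^ r| ≤
            L * |x - j * tau r| * |(2 : ℝ) ^ r| := by gcongr
        _ = L * (|x - j * tau r| * |(2 : ℝ) ^ r|) := by ring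
        _ ≤ L * 1 := by gcongr
        _ = L := mul_one L
    linarith

/-- **The value at zero is a candidate infinitely often.** -/
theorem vv_freq {U : List Bool →. List Bool} (hU : OptimalPF U) {code : ℚ × ℚ → List Bool}
    {m : ℕ} {a b : ℕ → ℝ} {C h : ℕ} (hh : 0 < h)
    (hC : 3 + (∑ k ∈ range (m + 1), (|a k| + |b k|) * k) + 2 * (m + 1) ≤ (C : ℝ))
    (hK : ∀ x ∈ Set.Icc (0 : ℝ) (1 / 4), ∃ᶠ r in atTop,
      Kr U code (x, tr m a b x) r ≤ r + r / h) :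
    ∃ᶠ r in atTop, ∃ v : ℤ, VV U code m C h r v ∧ |(v : ℝ) - tr m a b 0 * 2 ^ r| ≤ m + 1 := by
  refine (freq_large hh hK).mono fun r hr => ?_
  obtain ⟨L, hL1, hL2, hL3⟩ := cells (E := {x : ℝ | x ∈ Set.Icc (0 : ℝ) (1 / 4) ∧
    Kr U code (x, tr m a b x) r ≤ r + r / h}) (fun x hx => hx.1) (Nat.div_le_self r h) hr
  refine ⟨∑ k ∈ range (m + 1), (fl m r a).getD k 0, ⟨fl m r a, fl m r b, rfl, L, hL1, hL2,
    fun j hj => ?_⟩, ?_⟩
  · obtain ⟨h1, x, ⟨h2, h3⟩, h4, h5⟩ := hL3 j hj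
    exact ⟨h1, near_of hU hC h1 h4 h5 h3⟩
  · have e : tr m a b 0 = ∑ k ∈ range (m + 1), a k := by
      unfold tr
      refine Finset.sum_congr rfl fun k _ => ?_
      simp
    rw [e]
    push_cast
    rw [Finset.sum_mul, ← Finset.sum_sub_distrib]
    refine (Finset.abs_sum_le_sum_abs _ _).trans ?_
    have h1 : ∀ k ∈ range (m + 1), |(((fl m r a).getD k 0 : ℤ) : ℝ) - a k * 2 ^ r| ≤ 1 := by
      intro k hk
      rw [mem_range] at hk
      rw [fl_getD a hk]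
      have a1 := Int.floor_le (a k * 2 ^ r)
      have a2 := Int.lt_floor_add_one (a k * 2 ^ r)
      rw [abs_le]
      constructor <;> linarith
    refine (Finset.sum_le_sum h1).trans ?_
    rw [Finset.sum_const, card_range, nsmul_eq_mul]
    push_cast
    linarith

end Pool.Agent.V11232.DS
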